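import Mathlib
import Pool.Agent.Helper61.DG.Minor

/-!
# Specialisation: irreducibility of a plane curve, and lifts to finitely generated subalgebras
-/

set_option autoImplicit false

namespace Pool.Agent.Helper61.DH

open MvPolynomial
open Pool.Agent.Helper61.DG (BT mem_BT)

section irr

/-- the variables: the coefficients of two factors of degree less than `e` -/
abbrev Vv (e : ℕ) : Type := BT 2 e ⊕ BT 2 e

variable (e : ℕ)

/-- the general polynomial of degree less than `e` -/
noncomputable def gen (R : Type*) [CommRing R] (j : BT 2 e → Vv e) :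
    MvPolynomial (Fin 2) (MvPolynomial (Vv e) R) :=
  ∑ β : BT 2 e, monomial β.1 (X (j β))

/-- the equations for a factorisation -/
noncomputable def eqn {R : Type*} [CommRing R] (P : MvPolynomial (Fin 2) R) (γ : Fin 2 →₀ ℕ) :
    MvPolynomial (Vv e) R :=
  coeff γ (gen e R Sum.inl * gen e R Sum.inr) - C (coeff γ P)

/-- certificate: there is no factorisation into polynomials of degree less than `e` -/
def Cert {R : Type*} [CommRing R] (P : MvPolynomial (Fin 2) R) : Prop :=
  (1 : MvPolynomial (Vv e) R) ∈ Ideal.span (Set.range (eqn e P))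

variable {e} {R S : Type*} [CommRing R] [CommRing S]

theorem map_gen (θ : MvPolynomial (Vv e) R →+* S) (j : BT 2 e → Vv e) :
    MvPolynomial.map θ (gen e R j) = ∑ β : BT 2 e, monomial β.1 (θ (X (j β))) := by
  unfold gen
  rw [map_sum]
  exact Finset.sum_congr rfl fun β _ => map_monomial _ _ _

theorem eqn_apply (θ : MvPolynomial (Vv e) R →+* S) (P : MvPolynomial (Fin 2) R) (γ : Fin 2 →₀ ℕ) :
    θ (eqn e P γ) = coeff γ ((∑ β : BT 2 e, monomial β.1 (θ (X (Sum.inl β)))) *
      ∑ β : BT 2 e, monomial β.1 (θ (X (Sum.inr β)))) - θ (C (coeff γ P)) := by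
  unfold eqn
  rw [map_sub, ← coeff_map, map_mul, map_gen, map_gen]

theorem eqn_map (φ : R →+* S) (P : MvPolynomial (Fin 2) R) (γ : Fin 2 →₀ ℕ) :
    MvPolynomial.map φ (eqn e P γ) = eqn e (MvPolynomial.map φ P) γ := by
  have hg : ∀ j : BT 2 e → Vv e, MvPolynomial.map (MvPolynomial.map φ) (gen e R j) = gen e S j := by
    intro j
    rw [map_gen]
    unfold gen
    refine Finset.sum_congr rfl fun β _ => ?_
    rw [map_X]
  unfold eqn
  rw [map_sub, ← coeff_map, map_mul, hg, hg, map_C, coeff_map]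

theorem sum_coeff {G : MvPolynomial (Fin 2) S} (hG : G.totalDegree < e) :
    ∑ β : BT 2 e, monomial β.1 (coeff β.1 G) = G := by
  classical
  ext m
  rw [coeff_sum]
  simp only [coeff_monomial]
  by_cases hm : m ∈ BT 2 e
  · rw [Finset.sum_eq_single (⟨m, hm⟩ : BT 2 e)]
    · rw [if_pos rfl]
    · intro β _ hβ
      rw [if_neg fun h => hβ (Subtype.ext h)]
    · intro h
      exact absurd (Finset.mem_univ _) h
  · have h1 : ∀ β ∈ (Finset.univ : Finset (BT 2 e)),
        (if (β : Fin 2 →₀ ℕ) = m then coeff β.1 G else 0) = 0 := fun β _ => by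
      rw [if_neg]
      intro h
      exact hm (h ▸ β.2)
    rw [Finset.sum_eq_zero h1]
    rw [mem_BT, not_lt] at hm
    symm
    apply coeff_eq_zero_of_totalDegree_lt
    exact lt_of_lt_of_le hG hm

theorem sum_deg (he : 0 < e) (v : BT 2 e → S) :
    (∑ β : BT 2 e, monomial β.1 (v β)).totalDegree < e := by
  have h : (∑ β : BT 2 e, monomial β.1 (v β)).totalDegree ≤ e - 1 := by
    refine totalDegree_finsetSum_le fun β _ => ?_
    have h1 := mem_BT.1 β.2
    refine (totalDegree_monomial_le _ _).trans ?_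
    change β.1.degree ≤ e - 1
    omega
  omega

theorem no_factor [Nontrivial S] {P : MvPolynomial (Fin 2) R} (h : Cert e P) (φ : R →+* S)
    {G H : MvPolynomial (Fin 2) S} (hG : G.totalDegree < e) (hH : H.totalDegree < e) :
    MvPolynomial.map φ P ≠ G * H := by
  intro hP
  let θ : MvPolynomial (Vv e) R →+* S :=
    eval₂Hom φ (Sum.elim (fun β => coeff β.1 G) fun β => coeff β.1 H)
  have h1 : Ideal.span (Set.range (eqn e P)) ≤ RingHom.ker θ := by
    rw [Ideal.span_le]
    rintro _ ⟨γ, rfl⟩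
    change θ (eqn e P γ) = 0
    rw [eqn_apply]
    have h2 : ∀ β : BT 2 e, θ (X (Sum.inl β)) = coeff β.1 G := fun β => by
      simp only [θ, coe_eval₂Hom, eval₂_X, Sum.elim_inl]
    have h3 : ∀ β : BT 2 e, θ (X (Sum.inr β)) = coeff β.1 H := fun β => by
      simp only [θ, coe_eval₂Hom, eval₂_X, Sum.elim_inr]
    have h4 : θ (C (coeff γ P)) = φ (coeff γ P) := by
      simp only [θ, coe_eval₂Hom, eval₂_C]
    simp only [h2, h3, h4]
    rw [sum_coeff hG, sum_coeff hH, ← hP, coeff_map, sub_self]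
  have h2 := h1 h
  rw [RingHom.mem_ker, map_one] at h2
  exact one_ne_zero h2

theorem irr_of_cert {K : Type*} [Field K] {P : MvPolynomial (Fin 2) R} (h : Cert e P) (φ : R →+* K)
    (he : 0 < e) (hdeg : (MvPolynomial.map φ P).totalDegree = e) :
    Irreducible (MvPolynomial.map φ P) := by
  have hunit : ∀ G : MvPolynomial (Fin 2) K, G ≠ 0 → G.totalDegree = 0 → IsUnit G := by
    intro G hG h0
    rw [totalDegree_eq_zero_iff_eq_C] at h0
    rw [h0]
    have h1 : coeff 0 G ≠ 0 := by
      intro h2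
      rw [h2, C_0] at h0
      exact hG h0
    exact (isUnit_iff_ne_zero.2 h1).map C
  constructor
  · intro hu
    rw [isUnit_iff_totalDegree_of_isReduced] at hu
    omega
  · intro G H hGH
    by_contra hcon
    push Not at hcon
    have h0 : MvPolynomial.map φ P ≠ 0 := by
      intro h0
      rw [h0, totalDegree_zero] at hdeg
      omega
    have hG0 : G ≠ 0 := by
      rintro rfl
      rw [zero_mul] at hGH
      exact h0 hGH
    have hH0 : H ≠ 0 := by
      rintro rfl
      rw [mul_zero] at hGH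
      exact h0 hGH
    have h1 := totalDegree_mul_of_isDomain hG0 hH0
    rw [← hGH, hdeg] at h1
    have h2 : G.totalDegree ≠ 0 := fun h => hcon.1 (hunit G hG0 h)
    have h3 : H.totalDegree ≠ 0 := fun h => hcon.2 (hunit H hH0 h)
    exact no_factor h φ (G := G) (H := H) (by omega) (by omega) hGH

theorem cert_of_irr {Ω : Type*} [Field Ω] [IsAlgClosed Ω] {P : MvPolynomial (Fin 2) Ω}
    (hP : Irreducible P) : 0 < P.totalDegree ∧ Cert P.totalDegree P := by
  have he : 0 < P.totalDegree := by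
    rw [pos_iff_ne_zero]
    intro h0
    rw [totalDegree_eq_zero_iff_eq_C] at h0
    by_cases h1 : coeff 0 P = 0
    · rw [h1, C_0] at h0
      exact hP.ne_zero h0
    · apply hP.not_isUnit
      rw [h0]
      exact (isUnit_iff_ne_zero.2 h1).map C
  refine ⟨he, ?_⟩
  set e := P.totalDegree with hedef
  unfold Cert
  have h1 : (1 : MvPolynomial (Vv e) Ω) ∈ (Ideal.span (Set.range (eqn e P))).radical := by
    rw [← vanishingIdeal_zeroLocus_eq_radical (K := Ω), mem_vanishingIdeal_iff]
    intro v hv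
    exfalso
    let G : MvPolynomial (Fin 2) Ω := ∑ β : BT 2 e, monomial β.1 (v (Sum.inl β))
    let H : MvPolynomial (Fin 2) Ω := ∑ β : BT 2 e, monomial β.1 (v (Sum.inr β))
    have hGH : P = G * H := by
      ext γ
      have h2 := hv _ (Ideal.subset_span ⟨γ, rfl⟩)
      have h3 := eqn_apply ((aeval v : MvPolynomial (Vv e) Ω →ₐ[Ω] Ω) : MvPolynomial (Vv e) Ω →+* Ω)
        P γ
      simp only [AlgHom.coe_toRingHom, aeval_X, aeval_C, Algebra.algebraMap_self_apply] at h3
      rw [h2] at h3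
      exact (sub_eq_zero.1 h3.symm).symm
    have hG : G.totalDegree < e := sum_deg he _
    have hH : H.totalDegree < e := sum_deg he _
    have hG0 : G ≠ 0 := by
      intro h0
      rw [h0, zero_mul] at hGH
      exact hP.ne_zero hGH
    have hH0 : H ≠ 0 := by
      intro h0
      rw [h0, mul_zero] at hGH
      exact hP.ne_zero hGH
    have h4 := totalDegree_mul_of_isDomain hG0 hH0
    rw [← hGH, ← hedef] at h4
    rcases hP.isUnit_or_isUnit hGH with h5 | h5
    · rw [isUnit_iff_totalDegree_of_isReduced] at h5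
      omega
    · rw [isUnit_iff_totalDegree_of_isReduced] at h5
      omega
  obtain ⟨n, hn⟩ := h1
  rwa [one_pow] at hn

end irr

section ev

/-- a property of subalgebras which holds for all subalgebras which contain a certain finite set -/
def Ev (p : Subalgebra ℚ ℂ → Prop) : Prop :=
  ∃ S : Set ℂ, S.Finite ∧ ∀ A : Subalgebra ℚ ℂ, S ⊆ A → p A

theorem Ev.and {p q : Subalgebra ℚ ℂ → Prop} (hp : Ev p) (hq : Ev q) : Ev fun A => p A ∧ q A := by
  obtain ⟨S, hS, h1⟩ := hp
  obtain ⟨T, hT, h2⟩ := hq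
  exact ⟨S ∪ T, hS.union hT, fun A hA =>
    ⟨h1 A (Set.subset_union_left.trans hA), h2 A (Set.subset_union_right.trans hA)⟩⟩

theorem Ev.all {ι : Type*} [Finite ι] {p : ι → Subalgebra ℚ ℂ → Prop} (h : ∀ i, Ev (p i)) :
    Ev fun A => ∀ i, p i A := by
  choose S hS h1 using h
  exact ⟨⋃ i, S i, Set.finite_iUnion hS, fun A hA i => h1 i A ((Set.subset_iUnion S i).trans hA)⟩

theorem Ev.mono {p q : Subalgebra ℚ ℂ → Prop} (hp : Ev p) (h : ∀ A, p A → q A) : Ev q := by
  obtain ⟨S, hS, h1⟩ := hp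
  exact ⟨S, hS, fun A hA => h A (h1 A hA)⟩

theorem Ev.exists {p : Subalgebra ℚ ℂ → Prop} (hp : Ev p) :
    ∃ A : Subalgebra ℚ ℂ, Algebra.FiniteType ℚ A ∧ p A := by
  obtain ⟨S, hS, h1⟩ := hp
  refine ⟨Algebra.adjoin ℚ S, ?_, h1 _ Algebra.subset_adjoin⟩
  rw [← Subalgebra.fg_iff_finiteType]
  exact ⟨hS.toFinset, by rw [hS.coe_toFinset]⟩

theorem ev_lift {σ : Type*} (f : MvPolynomial σ ℂ) :
    Ev fun A => ∃ f' : MvPolynomial σ A, MvPolynomial.map (algebraMap A ℂ) f' = f := by
  refine ⟨f.coeffs, Finset.finite_toSet _, fun A hA => ?_⟩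
  refine mem_range_map_iff_coeffs_subset.2 fun a ha => ?_
  exact ⟨⟨a, hA ha⟩, rfl⟩

theorem ev_plift (f : Polynomial ℂ) :
    Ev fun A => ∃ f' : Polynomial A, Polynomial.map (algebraMap A ℂ) f' = f := by
  refine ⟨f.coeffs, Finset.finite_toSet _, fun A hA => ?_⟩
  have h1 : f ∈ Polynomial.lifts (algebraMap A ℂ) := by
    rw [Polynomial.lifts_iff_coeff_lifts]
    intro n
    by_cases h0 : f.coeff n = 0
    · exact ⟨0, by rw [h0, map_zero]⟩
    · exact ⟨⟨f.coeff n, hA (Polynomial.coeff_mem_coeffs h0)⟩, rfl⟩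
  exact (Polynomial.mem_lifts _).1 h1

theorem ev_mem (a : ℂ) : Ev fun A => ∃ a' : A, algebraMap A ℂ a' = a :=
  ⟨{a}, Set.finite_singleton a, fun _ hA => ⟨⟨a, hA rfl⟩, rfl⟩⟩

theorem ev_cert {e : ℕ} {P : MvPolynomial (Fin 2) ℂ} (h : Cert e P) :
    Ev fun A => ∀ P' : MvPolynomial (Fin 2) A, MvPolynomial.map (algebraMap A ℂ) P' = P →
      Cert e P' := by
  unfold Cert at h
  obtain ⟨c, hc⟩ := (Finsupp.mem_span_range_iff_exists_finsupp
    (R := MvPolynomial (Vv e) ℂ) (M := MvPolynomial (Vv e) ℂ)).1 h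
  refine (Ev.all fun γ : c.support => ev_lift (c γ)).mono fun A hA P' hP' => ?_
  choose b hb using hA
  have hinj : Function.Injective (MvPolynomial.map (σ := Vv e) (algebraMap A ℂ)) :=
    map_injective _ (Subtype.val_injective)
  have h1 : ∑ γ : c.support, b γ * eqn e P' γ.1 = 1 := by
    apply hinj
    have hc2 : ∑ γ : c.support, c γ • eqn e P γ.1 = 1 := by
      rw [← hc, Finsupp.sum]
      exact Finset.sum_coe_sort c.support fun γ => c γ • eqn e P γ
    rw [map_sum, map_one, ← hc2]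
    refine Finset.sum_congr rfl fun γ _ => ?_
    rw [map_mul, hb γ, smul_eq_mul, eqn_map, hP']
  unfold Cert
  rw [← h1]
  exact Ideal.sum_mem _ fun γ _ => Ideal.mul_mem_left _ _ (Ideal.subset_span ⟨γ.1, rfl⟩)

end ev

end Pool.Agent.Helper61.DH
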