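import Mathlib

/-!
# Specialisation: extension of homomorphisms to integral extensions, minimal polynomials
-/

set_option autoImplicit false

namespace Pool.Agent.Helper61.DH

/-- A homomorphism to an algebraically closed field extends to integral extensions. -/
theorem exists_hom_ext {B A k : Type*} [CommRing B] [CommRing A] [Algebra B A]
    [Algebra.IsIntegral B A] (hinj : Function.Injective (algebraMap B A)) [Field k] [IsAlgClosed k]
    (ψ : B →+* k) : ∃ φ : A →+* k, ∀ b, φ (algebraMap B A b) = ψ b := by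
  let p : Ideal B := RingHom.ker ψ
  have hp : p.IsPrime := RingHom.ker_isPrime ψ
  obtain ⟨Q, -, hQ, hcomap⟩ := Ideal.exists_ideal_over_prime_of_isIntegral p (⊥ : Ideal A) (by
    rw [← RingHom.ker_eq_comap_bot, (RingHom.injective_iff_ker_eq_bot _).1 hinj]
    exact bot_le)
  let _ : Algebra (B ⧸ p) (A ⧸ Q) := (Ideal.quotientMap Q (algebraMap B A) hcomap.ge).toAlgebra
  have hinj' : Function.Injective (algebraMap (B ⧸ p) (A ⧸ Q)) :=
    Ideal.quotientMap_injective' hcomap.le
  have hint : Algebra.IsIntegral (B ⧸ p) (A ⧸ Q) := by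
    refine ⟨fun y => ?_⟩
    obtain ⟨a, rfl⟩ := Ideal.Quotient.mk_surjective y
    obtain ⟨f, hf, hfa⟩ := Algebra.IsIntegral.isIntegral (R := B) a
    refine ⟨f.map (Ideal.Quotient.mk p), hf.map _, ?_⟩
    rw [Polynomial.eval₂_map]
    have h1 : (algebraMap (B ⧸ p) (A ⧸ Q)).comp (Ideal.Quotient.mk p) =
        (Ideal.Quotient.mk Q).comp (algebraMap B A) := by
      ext b
      rfl
    rw [h1, ← Polynomial.hom_eval₂, hfa, map_zero]
  let _ : Algebra (B ⧸ p) k := (Ideal.Quotient.lift p ψ fun a ha => ha).toAlgebra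
  have hinjk : Function.Injective (algebraMap (B ⧸ p) k) :=
    RingHom.lift_injective_of_ker_le_ideal p _ le_rfl
  have : FaithfulSMul (B ⧸ p) (A ⧸ Q) := (faithfulSMul_iff_algebraMap_injective _ _).2 hinj'
  have : FaithfulSMul (B ⧸ p) k := (faithfulSMul_iff_algebraMap_injective _ _).2 hinjk
  let f : (A ⧸ Q) →ₐ[B ⧸ p] k := IsAlgClosed.lift
  refine ⟨(f : (A ⧸ Q) →+* k).comp (Ideal.Quotient.mk Q), fun b => ?_⟩
  exact f.commutes (Ideal.Quotient.mk p b)

end Pool.Agent.Helper61.DH
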