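import Mathlib
import Pool.Agent.Helper61.DH.Ext

/-!
# Specialisation: homomorphisms over a point, minimal polynomials
-/

set_option autoImplicit false

namespace Pool.Agent.Helper61.DH

open Polynomial

section lift

variable {R A k : Type*} [CommRing R] [IsDomain R] [IsIntegrallyClosed R] [CommRing A] [IsDomain A]
  [Algebra R A] [Algebra.IsIntegral R A] [Module.IsTorsionFree R A] [Field k] [IsAlgClosed k]

/-- The roots of the specialised minimal polynomial are the values of the element. -/
theorem root_lift (ev : R →+* k) (a : A) {z : k} (hz : ((minpoly R a).map ev).IsRoot z) :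
    ∃ φ : A →+* k, φ.comp (algebraMap R A) = ev ∧ φ a = z := by
  have ha : IsIntegral R a := Algebra.IsIntegral.isIntegral a
  have hz' : (minpoly R a).eval₂ ev z = 0 := by
    rw [← eval_map]
    exact hz
  let θ : AdjoinRoot (minpoly R a) →+* k := AdjoinRoot.lift ev z hz'
  let e := minpoly.equivAdjoin ha
  let ψ : Algebra.adjoin R {a} →+* k := θ.comp (e.symm : Algebra.adjoin R {a} →+* _)
  have : Algebra.IsIntegral (Algebra.adjoin R {a}) A :=
    ⟨fun x => (Algebra.IsIntegral.isIntegral (R := R) x).tower_top⟩
  obtain ⟨φ, hφ⟩ := exists_hom_ext (B := Algebra.adjoin R {a}) (A := A)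
    Subtype.val_injective ψ
  refine ⟨φ, ?_, ?_⟩
  · ext r
    have h1 := hφ (algebraMap R _ r)
    rw [RingHom.comp_apply]
    refine h1.trans ?_
    change θ (e.symm (algebraMap R _ r)) = ev r
    rw [AlgEquiv.commutes]
    exact AdjoinRoot.lift_of hz'
  · have h1 := hφ ⟨a, Algebra.self_mem_adjoin_singleton R a⟩
    refine h1.trans ?_
    change θ (e.symm ⟨a, Algebra.self_mem_adjoin_singleton R a⟩) = z
    have h2 : e (AdjoinRoot.root (minpoly R a)) = ⟨a, Algebra.self_mem_adjoin_singleton R a⟩ := by
      apply Subtype.ext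
      rw [minpoly.coe_equivAdjoin]
      exact AdjoinRoot.Minpoly.coe_toAdjoin_mk_X
    rw [← h2, AlgEquiv.symm_apply_apply]
    exact AdjoinRoot.lift_root hz'

omit [IsIntegrallyClosed R] in
theorem exists_lift (ev : R →+* k) : ∃ φ : A →+* k, φ.comp (algebraMap R A) = ev := by
  have hinj : Function.Injective (algebraMap R A) := FaithfulSMul.algebraMap_injective R A
  obtain ⟨φ, hφ⟩ := exists_hom_ext hinj ev
  exact ⟨φ, RingHom.ext hφ⟩

omit [IsAlgClosed k] [IsDomain R] [IsIntegrallyClosed R] [IsDomain A] [Algebra.IsIntegral R A]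
  [Module.IsTorsionFree R A] in
theorem root_of_hom {ev : R →+* k} {φ : A →+* k} (hφ : φ.comp (algebraMap R A) = ev) (a : A) :
    ((minpoly R a).map ev).IsRoot (φ a) := by
  rw [IsRoot, eval_map, ← hφ, ← hom_eval₂, ← aeval_def, minpoly.aeval, map_zero]

omit [Algebra.IsIntegral R A] in
theorem natDegree_bound [Module.Finite R A] : ∃ E : ℕ, ∀ a : A, (minpoly R a).natDegree ≤ E := by
  obtain ⟨T, hT⟩ := Module.Finite.fg_top (R := R) (M := A)
  refine ⟨T.card, fun a => ?_⟩
  by_contra hcon
  push Not at hcon
  have hni : ¬ LinearIndependent R (fun j : Fin (T.card + 1) => a ^ (j : ℕ)) := by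
    intro hi
    have h1 := linearIndependent_le_span_finset _ hi T hT
    rw [Cardinal.mk_fin] at h1
    have h2 : T.card + 1 ≤ T.card := by exact_mod_cast h1
    omega
  rw [Fintype.linearIndependent_iff] at hni
  push Not at hni
  obtain ⟨c, hc, j, hj⟩ := hni
  let q : R[X] := ∑ j : Fin (T.card + 1), C (c j) * X ^ (j : ℕ)
  have hq : q ≠ 0 := by
    intro h0
    have h1 : q.coeff j = c j := by
      simp only [q, finsetSum_coeff, coeff_C_mul, coeff_X_pow]
      rw [Finset.sum_eq_single j]
      · simp
      · intro b _ hb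
        rw [if_neg (fun h => hb (Fin.ext h.symm)), mul_zero]
      · intro h
        exact absurd (Finset.mem_univ j) h
    rw [h0, coeff_zero] at h1
    exact hj h1.symm
  have hqa : aeval a q = 0 := by
    rw [← hc]
    simp only [q, map_sum, map_mul, aeval_C, map_pow, aeval_X, Algebra.smul_def]
  have h1 := minpoly.IsIntegrallyClosed.degree_le_of_ne_zero hq hqa
  have h2 : q.natDegree ≤ T.card := by
    refine natDegree_sum_le_of_forall_le _ _ fun j _ => ?_
    refine (natDegree_C_mul_X_pow_le _ _).trans ?_
    have := j.2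
    omega
  have h3 := natDegree_le_natDegree h1
  omega

omit [IsAlgClosed k] [IsDomain R] [IsIntegrallyClosed R] [IsDomain A]
  [Module.IsTorsionFree R A] in
/-- There are finitely many homomorphisms over a point. -/
theorem finite_homs [Algebra.FiniteType R A] (ev : R →+* k) :
    {φ : A →+* k | φ.comp (algebraMap R A) = ev}.Finite := by
  classical
  obtain ⟨T, hT⟩ := Algebra.FiniteType.out (R := R) (A := A)
  have h1 : (Set.pi Set.univ fun t : T => (((minpoly R (t : A)).map ev).roots.toFinset : Set k)).Finite :=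
    Set.Finite.pi fun t => Finset.finite_toSet _
  refine Set.Finite.of_injOn (f := fun (φ : A →+* k) (t : T) => φ t)
    (t := Set.pi Set.univ fun t : T => (((minpoly R (t : A)).map ev).roots.toFinset : Set k)) ?_ ?_ h1
  · intro φ hφ
    rw [Set.mem_univ_pi]
    intro t
    rw [Finset.mem_coe, Multiset.mem_toFinset, mem_roots']
    refine ⟨?_, root_of_hom hφ _⟩
    exact ((minpoly.monic (Algebra.IsIntegral.isIntegral (R := R) (t : A))).map ev).ne_zero
  · intro φ hφ ψ hψ h
    ext a
    have ha : a ∈ Algebra.adjoin R (T : Set A) := by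
      rw [hT]
      trivial
    induction ha using Algebra.adjoin_induction with
    | mem x hx => exact congrFun h ⟨x, hx⟩
    | algebraMap r =>
      have h2 := RingHom.congr_fun hφ r
      have h3 := RingHom.congr_fun hψ r
      exact h2.trans h3.symm
    | add x y _ _ hx hy => rw [map_add, map_add, hx, hy]
    | mul x y _ _ hx hy => rw [map_mul, map_mul, hx, hy]

end lift

end Pool.Agent.Helper61.DH
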