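import Mathlib
import Pool.Agent.Helper61.DH.Lift
import Pool.Agent.Helper61.DG.Elim
import Pool.Agent.Helper26.RC.Rates

/-!
# Specialisation: bounds
-/

set_option autoImplicit false

namespace Pool.Agent.Helper61.DH

open MvPolynomial Filter

section PB

variable {X : Type*}

/-- polynomially bounded in terms of the weight -/
def PB (W f : X → ℝ) : Prop := ∃ (C : ℝ) (b : ℕ), 0 < C ∧ ∀ x, f x ≤ C * W x ^ b

variable {W f g : X → ℝ}

theorem PB.mono (hg : PB W g) (h : ∀ x, f x ≤ g x) : PB W f := by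
  obtain ⟨C, b, hC, hb⟩ := hg
  exact ⟨C, b, hC, fun x => (h x).trans (hb x)⟩

theorem PB.const (c : ℝ) : PB W fun _ => c :=
  ⟨|c| + 1, 0, by positivity, fun x => by
    rw [pow_zero, mul_one]
    linarith [le_abs_self c]⟩

theorem PB.add (hW : ∀ x, 1 ≤ W x) (hf : PB W f) (hg : PB W g) : PB W fun x => f x + g x := by
  obtain ⟨C, b, hC, hb⟩ := hf
  obtain ⟨D, c, hD, hc⟩ := hg
  refine ⟨C + D, b + c, by positivity, fun x => ?_⟩
  have h1 : W x ^ b ≤ W x ^ (b + c) := pow_le_pow_right₀ (hW x) (by omega)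
  have h2 : W x ^ c ≤ W x ^ (b + c) := pow_le_pow_right₀ (hW x) (by omega)
  have h3 := hb x
  have h4 := hc x
  nlinarith

theorem PB.mul (hW : ∀ x, 1 ≤ W x) (_hf0 : ∀ x, 0 ≤ f x) (hg0 : ∀ x, 0 ≤ g x) (hf : PB W f)
    (hg : PB W g) : PB W fun x => f x * g x := by
  obtain ⟨C, b, hC, hb⟩ := hf
  obtain ⟨D, c, hD, hc⟩ := hg
  refine ⟨C * D, b + c, by positivity, fun x => ?_⟩
  have h0 : 0 < W x := lt_of_lt_of_le one_pos (hW x)
  calc f x * g x ≤ (C * W x ^ b) * (D * W x ^ c) :=
        mul_le_mul (hb x) (hc x) (hg0 x) (by positivity)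
    _ = C * D * W x ^ (b + c) := by rw [pow_add]; ring

theorem PB.sum (hW : ∀ x, 1 ≤ W x) {ι : Type*} (s : Finset ι) {F : ι → X → ℝ}
    (hF : ∀ i ∈ s, PB W (F i)) : PB W fun x => ∑ i ∈ s, F i x := by
  classical
  induction s using Finset.induction_on with
  | empty => simpa using PB.const (W := W) 0
  | insert a s ha ih =>
    have h1 := (hF a (Finset.mem_insert_self a s)).add hW
      (ih fun i hi => hF i (Finset.mem_insert_of_mem hi))
    refine h1.mono fun x => ?_
    rw [Finset.sum_insert ha]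

end PB

section monic

theorem monic_root_le {p : Polynomial ℂ} (hp : p.Monic) {z : ℂ} (hz : p.IsRoot z) :
    ‖z‖ ≤ 1 + ∑ j ∈ Finset.range p.natDegree, ‖p.coeff j‖ := by
  have h1 := hz.norm_lt_cauchyBound hp.ne_zero
  have h2 : Polynomial.cauchyBound p ≤ (∑ j ∈ Finset.range p.natDegree, ‖p.coeff j‖₊) + 1 := by
    unfold Polynomial.cauchyBound
    rw [hp.leadingCoeff, nnnorm_one, div_one]
    refine add_le_add_left ?_ 1
    refine Finset.sup_le fun j hj => ?_
    exact Finset.single_le_sum (f := fun j => ‖p.coeff j‖₊) (fun _ _ => bot_le) hj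
  have h3 := h1.le.trans h2
  have h4 : (‖z‖₊ : ℝ) ≤ ((∑ j ∈ Finset.range p.natDegree, ‖p.coeff j‖₊ + 1 : NNReal) : ℝ) := by
    exact_mod_cast h3
  push_cast at h4
  rw [add_comm]
  exact h4

end monic

section weight

variable {r : ℕ}

/-- evaluation at a rational point, with values in the complex numbers -/
noncomputable def ev (s : Fin r → ℚ) : MvPolynomial (Fin r) ℚ →+* ℂ :=
  (algebraMap ℚ ℂ).comp (eval s)

/-- the size of a rational point -/
noncomputable def w (s : Fin r → ℚ) : ℝ := 1 + ∑ i, |(s i : ℝ)|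

theorem one_le_w (s : Fin r → ℚ) : 1 ≤ w s := by
  unfold w
  have : 0 ≤ ∑ i, |(s i : ℝ)| := Finset.sum_nonneg fun i _ => abs_nonneg _
  linarith

theorem ev_eq (s : Fin r → ℚ) (p : MvPolynomial (Fin r) ℚ) : ev s p = ((eval s p : ℚ) : ℂ) := rfl

theorem norm_ev (s : Fin r → ℚ) (p : MvPolynomial (Fin r) ℚ) : ‖ev s p‖ = |((eval s p : ℚ) : ℝ)| := by
  rw [ev_eq]
  have h : (((eval s p : ℚ) : ℝ) : ℂ) = ((eval s p : ℚ) : ℂ) := by push_cast; rfl
  rw [← h, Complex.norm_real, Real.norm_eq_abs]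

theorem pb_ev (p : MvPolynomial (Fin r) ℚ) : PB w fun s => ‖ev s p‖ := by
  obtain ⟨C, hC, h⟩ := Pool.Agent.Helper26.RC.eval_le
    (NormedField.toAbsoluteValue ℂ) (MvPolynomial.map (algebraMap ℚ ℂ) p)
  refine ⟨C, (MvPolynomial.map (algebraMap ℚ ℂ) p).totalDegree, hC, fun s => ?_⟩
  have h1 := h fun i => algebraMap ℚ ℂ (s i)
  have h2 : Pool.Agent.Helper26.RC.sz (NormedField.toAbsoluteValue ℂ)
      (fun i => algebraMap ℚ ℂ (s i)) = w s := by
    unfold Pool.Agent.Helper26.RC.sz w
    congr 1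
    refine Finset.sum_congr rfl fun i _ => ?_
    change ‖((s i : ℚ) : ℂ)‖ = _
    have h : (((s i : ℚ) : ℝ) : ℂ) = ((s i : ℚ) : ℂ) := by push_cast; rfl
    rw [← h, Complex.norm_real, Real.norm_eq_abs]
  rw [h2] at h1
  have h3 : eval (fun i => algebraMap ℚ ℂ (s i)) (MvPolynomial.map (algebraMap ℚ ℂ) p) = ev s p := by
    rw [eval_map, ev, RingHom.comp_apply, ← coe_aeval_eq_eval]
    exact MvPolynomial.aeval_algebraMap_apply ℂ s p
  rw [h3] at h1
  exact h1

/-- A polynomial which grows slowly off a hypersurface has small degree. -/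
theorem deg_le {c G : MvPolynomial (Fin r) ℚ} (hG : G ≠ 0) {C : ℝ} {B : ℕ}
    (h : ∀ s, eval s G ≠ 0 → ‖ev s c‖ ≤ C * w s ^ B) : c.totalDegree ≤ B := by
  by_contra hcon
  push Not at hcon
  set m := c.totalDegree with hm
  have hc0 : c ≠ 0 := by
    rintro rfl
    rw [totalDegree_zero] at hm
    omega
  have hcm : ∀ f : MvPolynomial (Fin r) ℚ, f ≠ 0 → homogeneousComponent f.totalDegree f ≠ 0 := by
    intro f hf h0
    obtain ⟨t, ht, ht'⟩ : ∃ t ∈ f.support, t.degree = f.totalDegree := by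
      have h1 := Finset.exists_mem_eq_sup f.support (support_nonempty.2 hf) fun s => s.degree
      obtain ⟨t, ht, h2⟩ := h1
      refine ⟨t, ht, ?_⟩
      rw [totalDegree]
      exact h2.symm
    have h2 := congrArg (coeff t) h0
    rw [coeff_homogeneousComponent, if_pos ht', coeff_zero] at h2
    exact (mem_support_iff.1 ht) h2
  have hprod : homogeneousComponent m c * homogeneousComponent G.totalDegree G ≠ 0 :=
    mul_ne_zero (hcm c hc0) (hcm G hG)
  obtain ⟨v, hv⟩ : ∃ v, eval v (homogeneousComponent m c * homogeneousComponent G.totalDegree G) ≠ 0 := by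
    by_contra hall
    push Not at hall
    exact hprod (MvPolynomial.funext fun x => by rw [hall x, map_zero])
  rw [map_mul] at hv
  have hv1 := left_ne_zero_of_mul hv
  have hv2 := right_ne_zero_of_mul hv
  let ray : MvPolynomial (Fin r) ℚ → Polynomial ℝ := fun f =>
    ∑ k ∈ Finset.range (f.totalDegree + 1),
      Polynomial.C (((eval v (homogeneousComponent k f) : ℚ) : ℝ)) * Polynomial.X ^ k
  have hray : ∀ (f : MvPolynomial (Fin r) ℚ) (n : ℕ), (ray f).eval (n : ℝ) =
      ((eval (fun i => (n : ℚ) * v i) f : ℚ) : ℝ) := by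
    intro f n
    conv_rhs => rw [← sum_homogeneousComponent f]
    rw [Polynomial.eval_finsetSum, map_sum]
    push_cast
    refine Finset.sum_congr rfl fun k _ => ?_
    rw [Pool.Agent.Helper61.DG.eval_smul_hom (homogeneousComponent_isHomogeneous k f)]
    simp
    ring
  have hcoef : ∀ f : MvPolynomial (Fin r) ℚ, (ray f).coeff f.totalDegree =
      ((eval v (homogeneousComponent f.totalDegree f) : ℚ) : ℝ) := by
    intro f
    simp only [ray, Polynomial.finsetSum_coeff, Polynomial.coeff_C_mul, Polynomial.coeff_X_pow]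
    rw [Finset.sum_eq_single f.totalDegree]
    · simp
    · intro b _ hb
      rw [if_neg (fun h => hb h.symm), mul_zero]
    · intro h
      exact absurd (Finset.mem_range.2 (Nat.lt_succ_self _)) h
  let Q : Polynomial ℝ := (1 + Polynomial.C (∑ i, |(v i : ℝ)|) * Polynomial.X) ^ B
  have hQ0 : Q ≠ 0 := by
    intro h0
    have h1 : Q.eval 0 = 1 := by simp [Q]
    rw [h0, Polynomial.eval_zero] at h1
    exact zero_ne_one h1
  have hQdeg : Q.natDegree ≤ B := by
    refine (Polynomial.natDegree_pow_le).trans ?_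
    have h1 : (1 + Polynomial.C (∑ i, |(v i : ℝ)|) * Polynomial.X : Polynomial ℝ).natDegree ≤ 1 := by
      refine (Polynomial.natDegree_add_le _ _).trans ?_
      rw [Polynomial.natDegree_one]
      exact max_le (by omega) ((Polynomial.natDegree_C_mul_le _ _).trans Polynomial.natDegree_X_le)
    nlinarith
  have hPdeg : Q.degree < (ray c).degree := by
    have h1 : (ray c).coeff m ≠ 0 := by
      rw [hm, hcoef]
      exact_mod_cast hv1
    refine lt_of_le_of_lt (Polynomial.degree_le_of_natDegree_le hQdeg) ?_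
    refine lt_of_lt_of_le ?_ (Polynomial.le_degree_of_ne_zero h1)
    exact_mod_cast hcon
  have ht := (Polynomial.abs_div_tendsto_atTop_atTop_of_degree_gt (ray c) Q hPdeg hQ0).comp
    tendsto_natCast_atTop_atTop
  have hG0 : ray G ≠ 0 := by
    intro h0
    have h1 := hcoef G
    rw [h0, Polynomial.coeff_zero] at h1
    apply hv2
    exact_mod_cast h1.symm
  have hno : ∀ᶠ n : ℕ in atTop, ¬ (ray G).IsRoot (n : ℝ) :=
    tendsto_natCast_atTop_atTop.eventually (Polynomial.eventually_atTop_not_isRoot _ hG0)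
  obtain ⟨n, hn1, hn2⟩ := ((ht.eventually (eventually_gt_atTop C)).and hno).exists
  have hs : eval (fun i => (n : ℚ) * v i) G ≠ 0 := by
    intro h0
    apply hn2
    rw [Polynomial.IsRoot, hray, h0, Rat.cast_zero]
  have h1 := h _ hs
  rw [norm_ev, ← hray] at h1
  have hw : w (fun i => (n : ℚ) * v i) ^ B = Q.eval (n : ℝ) := by
    simp only [w, Q, Polynomial.eval_pow, Polynomial.eval_add, Polynomial.eval_one,
      Polynomial.eval_mul, Polynomial.eval_C, Polynomial.eval_X]
    congr 2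
    rw [Finset.sum_mul]
    refine Finset.sum_congr rfl fun i _ => ?_
    push_cast
    rw [abs_mul, abs_of_nonneg (Nat.cast_nonneg n : (0 : ℝ) ≤ n), mul_comm]
  have hQpos : 0 < Q.eval (n : ℝ) := by
    rw [← hw]
    have := one_le_w fun i => (n : ℚ) * v i
    positivity
  rw [hw] at h1
  simp only [Function.comp_apply] at hn1
  rw [abs_div, abs_of_pos hQpos, lt_div_iff₀ hQpos] at hn1
  exact absurd h1 (not_le.2 hn1)

end weight

end Pool.Agent.Helper61.DH
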