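import Mathlib
import Pool.Agent.Helper61.DH.Grow

/-!
# Specialisation: an orbit which is not preperiodic stays so at a suitable algebraic point
-/

set_option autoImplicit false

namespace Pool.Agent.Helper61.DH

open MvPolynomial Filter

section escape

variable {A : Type*} [CommRing A] {N : ℕ}

/-- the sum of the norms of the values of the coefficients -/
noncomputable def cn (φ : A →+* ℂ) (f : MvPolynomial (Fin N) A) : ℝ :=
  ∑ m ∈ f.support, ‖φ (f.coeff m)‖

theorem cn_nonneg (φ : A →+* ℂ) (f : MvPolynomial (Fin N) A) : 0 ≤ cn φ f :=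
  Finset.sum_nonneg fun _ _ => norm_nonneg _

theorem cn_le (φ : A →+* ℂ) {f g : MvPolynomial (Fin N) A}
    (h : ∀ m, coeff m f = coeff m g ∨ coeff m f = 0) : cn φ f ≤ cn φ g := by
  unfold cn
  have hs : f.support ⊆ g.support := by
    intro m hm
    rw [mem_support_iff] at hm ⊢
    rcases h m with h1 | h1
    · rwa [← h1]
    · exact absurd h1 hm
  refine (Finset.sum_le_sum fun m hm => ?_).trans
    (Finset.sum_le_sum_of_subset_of_nonneg hs fun _ _ _ => norm_nonneg _)
  rcases h m with h1 | h1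
  · rw [h1]
  · exact absurd h1 (mem_support_iff.1 hm)

theorem evb (φ : A →+* ℂ) {f : MvPolynomial (Fin N) A} {δ : ℕ} (hf : f.totalDegree ≤ δ) {Y : ℝ}
    (hY : 1 ≤ Y) {x : Fin N → ℂ} (hx : ∀ i, ‖x i‖ ≤ Y) :
    ‖eval x (MvPolynomial.map φ f)‖ ≤ cn φ f * Y ^ δ := by
  rw [eval_map, eval₂_eq, cn, Finset.sum_mul]
  refine (norm_sum_le _ _).trans (Finset.sum_le_sum fun m hm => ?_)
  rw [norm_mul]
  refine mul_le_mul_of_nonneg_left ?_ (norm_nonneg _)
  rw [norm_prod]
  calc ∏ i ∈ m.support, ‖x i ^ m i‖ ≤ ∏ i ∈ m.support, Y ^ m i :=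
        Finset.prod_le_prod (fun _ _ => norm_nonneg _) fun i _ => by
          rw [norm_pow]
          exact pow_le_pow_left₀ (norm_nonneg _) (hx i) _
    _ = Y ^ (∑ i ∈ m.support, m i) := Finset.prod_pow_eq_pow_sum _ _ _
    _ ≤ Y ^ δ := pow_le_pow_right₀ hY ((le_totalDegree hm).trans hf)

theorem td_sub {d : ℕ} (hd : 1 ≤ d) {f : MvPolynomial (Fin N) A} (hf : f.totalDegree ≤ d) :
    (f - homogeneousComponent d f).totalDegree ≤ d - 1 := by
  rw [totalDegree, Finset.sup_le_iff]
  intro m hm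
  have h1 : m ∈ f.support ∧ m.degree ≠ d := by
    rw [mem_support_iff, coeff_sub, coeff_homogeneousComponent] at hm
    split_ifs at hm with h
    · rw [sub_self] at hm
      exact absurd rfl hm
    · rw [sub_zero] at hm
      exact ⟨mem_support_iff.2 hm, h⟩
  have h2 : m.degree ≤ f.totalDegree := le_totalDegree h1.1
  have h3 : m.degree ≤ d - 1 := by
    have := h1.2
    omega
  exact h3

theorem escape {d : ℕ} (hd : 2 ≤ d) {Φ : Fin N → MvPolynomial (Fin N) A}
    (hdeg : ∀ i, (Φ i).totalDegree ≤ d) {e : ℕ} {Q : Fin N → Fin N → MvPolynomial (Fin N) A}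
    (hQ : ∀ i j, (Q i j).totalDegree ≤ e)
    (hcert : ∀ i, (X i : MvPolynomial (Fin N) A) ^ (e + d) =
      ∑ j, Q i j * homogeneousComponent d (Φ j))
    (φ : A →+* ℂ) {y : ℕ → Fin N → ℂ}
    (hy : ∀ n i, y (n + 1) i = eval (y n) (MvPolynomial.map φ (Φ i)))
    (hfin : (Set.range y).Finite) {c : ℝ} (hc0 : 0 ≤ c) (hcΦ : ∀ i, cn φ (Φ i) ≤ c)
    (hcQ : ∀ i j, cn φ (Q i j) ≤ c) (n : ℕ) (i : Fin N) :
    ‖y n i‖ ≤ 1 + N * (c * (1 + c)) := by
  by_contra hcon
  push Not at hcon
  have hfin2 : (Set.range fun p : ℕ × Fin N => ‖y p.1 p.2‖).Finite := by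
    have h1 : (Set.range fun p : ℕ × Fin N => ‖y p.1 p.2‖) ⊆
        ⋃ i : Fin N, (fun v : Fin N → ℂ => ‖v i‖) '' Set.range y := by
      rintro _ ⟨⟨n, i⟩, rfl⟩
      exact Set.mem_iUnion.2 ⟨i, y n, ⟨n, rfl⟩, rfl⟩
    exact (Set.finite_iUnion fun i => hfin.image _).subset h1
  obtain ⟨_, ⟨⟨a, l⟩, rfl⟩, hmax⟩ := Set.exists_max_image _ id hfin2 ⟨_, ⟨(n, i), rfl⟩⟩
  have hle : ∀ m j, ‖y m j‖ ≤ ‖y a l‖ := fun m j => hmax _ ⟨(m, j), rfl⟩
  have hK : 1 + N * (c * (1 + c)) < ‖y a l‖ := lt_of_lt_of_le hcon (hle n i)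
  generalize hY : ‖y a l‖ = Y at hle hK
  have hNc : 0 ≤ N * (c * (1 + c)) := by positivity
  have hY1 : 1 ≤ Y := by linarith
  have hY0 : 0 < Y := by linarith
  have hF : ∀ j, ‖eval (y a) (MvPolynomial.map φ (homogeneousComponent d (Φ j)))‖ ≤
      (1 + c) * Y ^ (d - 1) := by
    intro j
    have h1 : MvPolynomial.map φ (homogeneousComponent d (Φ j)) = MvPolynomial.map φ (Φ j) -
        MvPolynomial.map φ (Φ j - homogeneousComponent d (Φ j)) := by
      rw [map_sub]
      ring
    rw [h1, map_sub]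
    refine (norm_sub_le _ _).trans ?_
    rw [← hy]
    have h2 := evb φ (td_sub (by omega : 1 ≤ d) (hdeg j)) hY1 (x := y a) fun i => hle a i
    have h3 : cn φ (Φ j - homogeneousComponent d (Φ j)) ≤ c := by
      refine (cn_le φ fun m => ?_).trans (hcΦ j)
      rw [coeff_sub, coeff_homogeneousComponent]
      split_ifs
      · right
        rw [sub_self]
      · left
        rw [sub_zero]
    have h4 : Y ≤ Y ^ (d - 1) := by
      calc Y = Y ^ 1 := (pow_one Y).symm
        _ ≤ Y ^ (d - 1) := pow_le_pow_right₀ hY1 (by omega)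
    have h5 : cn φ (Φ j - homogeneousComponent d (Φ j)) * Y ^ (d - 1) ≤ c * Y ^ (d - 1) :=
      mul_le_mul_of_nonneg_right h3 (by positivity)
    have h6 := hle (a + 1) j
    linarith
  have h1 : Y ^ (e + d) ≤ N * (c * (1 + c)) * Y ^ (e + (d - 1)) := by
    have h2 : eval (y a) (MvPolynomial.map φ ((X l : MvPolynomial (Fin N) A) ^ (e + d))) =
        y a l ^ (e + d) := by
      rw [map_pow, map_X, map_pow, eval_X]
    rw [← hY, ← norm_pow, ← h2, hcert l, map_sum, map_sum, hY]
    refine (norm_sum_le _ _).trans ?_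
    have h3 : ∀ j ∈ (Finset.univ : Finset (Fin N)),
        ‖eval (y a) (MvPolynomial.map φ (Q l j * homogeneousComponent d (Φ j)))‖ ≤
          (c * (1 + c)) * Y ^ (e + (d - 1)) := by
      intro j _
      rw [map_mul, map_mul, norm_mul]
      have h4 := evb φ (hQ l j) hY1 (x := y a) fun i => hle a i
      have h5 : cn φ (Q l j) * Y ^ e ≤ c * Y ^ e :=
        mul_le_mul_of_nonneg_right (hcQ l j) (by positivity)
      calc _ ≤ (c * Y ^ e) * ((1 + c) * Y ^ (d - 1)) :=
            mul_le_mul (h4.trans h5) (hF j) (norm_nonneg _) (by positivity)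
        _ = _ := by rw [pow_add]; ring
    refine (Finset.sum_le_sum h3).trans ?_
    rw [Finset.sum_const, Finset.card_univ, Fintype.card_fin, nsmul_eq_mul]
    exact le_of_eq (by ring)
  have h2 : e + d = (e + (d - 1)) + 1 := by omega
  rw [h2, pow_succ, mul_comm] at h1
  have h3 : Y ≤ N * (c * (1 + c)) := le_of_mul_le_mul_right h1 (by positivity)
  linarith

end escape

section period

theorem finite_of_not_inj {T : Type*} {y : ℕ → T} {F : T → T} (hy : ∀ n, y (n + 1) = F (y n))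
    (hinj : ¬ Function.Injective y) : (Set.range y).Finite := by
  unfold Function.Injective at hinj
  push Not at hinj
  obtain ⟨m, n, hmn, hne⟩ := hinj
  wlog h : m < n generalizing m n
  · exact this n m hmn.symm hne.symm (by omega)
  have key : ∀ k, ∃ l < n, y k = y l := by
    intro k
    induction k with
    | zero => exact ⟨0, by omega, rfl⟩
    | succ k ih =>
      obtain ⟨l, hl, hkl⟩ := ih
      have h1 : y (k + 1) = y (l + 1) := by rw [hy, hy, hkl]
      rcases (by omega : l + 1 < n ∨ l + 1 = n) with h2 | h2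
      · exact ⟨l + 1, h2, h1⟩
      · exact ⟨m, h, by rw [h1, h2, hmn]⟩
  refine ((Set.finite_Iio n).image y).subset ?_
  rintro _ ⟨k, rfl⟩
  obtain ⟨l, hl, h1⟩ := key k
  exact ⟨l, hl, h1.symm⟩

end period

section cz

/-- The minimal polynomial of a nonzero element has nonzero constant coefficient. -/
theorem coeff_zero_ne {R A : Type*} [CommRing R] [IsDomain R] [IsIntegrallyClosed R] [CommRing A]
    [IsDomain A] [Algebra R A] [Module.IsTorsionFree R A] {z : A} (hz : IsIntegral R z)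
    (hz0 : z ≠ 0) : (minpoly R z).coeff 0 ≠ 0 := by
  intro h0
  have h1 := Polynomial.divX_mul_X_add (minpoly R z)
  rw [h0, Polynomial.C_0, add_zero] at h1
  have hq0 : (minpoly R z).divX ≠ 0 := by
    intro h
    rw [h, zero_mul] at h1
    exact (minpoly.monic hz).ne_zero h1.symm
  have h2 : Polynomial.aeval z (minpoly R z).divX = 0 := by
    have h3 := minpoly.aeval R z
    rw [← h1, map_mul, Polynomial.aeval_X] at h3
    exact (mul_eq_zero.1 h3).resolve_right hz0
  have h4 := minpoly.IsIntegrallyClosed.degree_le_of_ne_zero hq0 h2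
  have h5 : (minpoly R z).degree = (minpoly R z).divX.degree + 1 := by
    conv_lhs => rw [← h1]
    rw [Polynomial.degree_mul, Polynomial.degree_X]
  rw [h5, Polynomial.degree_eq_natDegree hq0] at h4
  have h6 : (minpoly R z).divX.natDegree + 1 ≤ (minpoly R z).divX.natDegree := by exact_mod_cast h4
  omega

end cz

section lemB

variable {r : ℕ} {A : Type*} [CommRing A] [IsDomain A] [Algebra (MvPolynomial (Fin r) ℚ) A]
  [Algebra.IsIntegral (MvPolynomial (Fin r) ℚ) A]

variable (A) in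
/-- pairs of a rational point and a homomorphism over it -/
def PH (r : ℕ) [Algebra (MvPolynomial (Fin r) ℚ) A] : Type _ :=
  {p : (Fin r → ℚ) × (A →+* ℂ) // p.2.comp (algebraMap (MvPolynomial (Fin r) ℚ) A) = ev p.1}

omit [IsDomain A] in
theorem pb_hom (a : A) : PB (fun p : PH A r => w p.1.1) fun p => ‖p.1.2 a‖ := by
  have ha : IsIntegral (MvPolynomial (Fin r) ℚ) a := Algebra.IsIntegral.isIntegral a
  have h1 : PB (fun p : PH A r => w p.1.1) fun p => 1 +
      ∑ j ∈ Finset.range (minpoly (MvPolynomial (Fin r) ℚ) a).natDegree,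
        ‖ev p.1.1 ((minpoly (MvPolynomial (Fin r) ℚ) a).coeff j)‖ := by
    refine (PB.const 1).add (fun p => one_le_w _) (PB.sum (fun p => one_le_w _) _ fun j _ => ?_)
    obtain ⟨C, b, hC, hb⟩ := pb_ev ((minpoly (MvPolynomial (Fin r) ℚ) a).coeff j)
    exact ⟨C, b, hC, fun p => hb p.1.1⟩
  refine h1.mono fun p => ?_
  have h2 := monic_root_le ((minpoly.monic ha).map (ev p.1.1)) (root_of_hom p.2 a)
  rw [(minpoly.monic ha).natDegree_map] at h2
  simpa only [Polynomial.coeff_map] using h2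

omit [IsDomain A] in
/-- The values over a rational point are algebraic numbers. -/
theorem algebraic_of_over {s : Fin r → ℚ} {φ : A →+* ℂ}
    (hφ : φ.comp (algebraMap (MvPolynomial (Fin r) ℚ) A) = ev s) (a : A) : IsAlgebraic ℚ (φ a) := by
  have ha : IsIntegral (MvPolynomial (Fin r) ℚ) a := Algebra.IsIntegral.isIntegral a
  refine ⟨(minpoly (MvPolynomial (Fin r) ℚ) a).map (eval s), ((minpoly.monic ha).map _).ne_zero, ?_⟩
  have h := root_of_hom hφ a
  rw [Polynomial.aeval_def, Polynomial.eval₂_eq_eval_map, Polynomial.map_map]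
  exact h

/-- the core of the specialisation lemma -/
theorem core [Module.IsTorsionFree (MvPolynomial (Fin r) ℚ) A]
    [Module.Finite (MvPolynomial (Fin r) ℚ) A] {N d : ℕ} (hd : 2 ≤ d)
    {Φ : Fin N → MvPolynomial (Fin N) A} (hdeg : ∀ i, (Φ i).totalDegree ≤ d) {e : ℕ}
    {Q : Fin N → Fin N → MvPolynomial (Fin N) A} (hQ : ∀ i j, (Q i j).totalDegree ≤ e)
    (hcert : ∀ i, (X i : MvPolynomial (Fin N) A) ^ (e + d) =
      ∑ j, Q i j * homogeneousComponent d (Φ j))
    {x : ℕ → Fin N → A} (hx : ∀ n i, x (n + 1) i = eval (x n) (Φ i)) (hinj : Function.Injective x)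
    {g : A} (hg : g ≠ 0) :
    ∃ φ : A →+* ℂ, (∀ a, IsAlgebraic ℚ (φ a)) ∧ φ g ≠ 0 ∧
      Function.Injective fun n => fun i => φ (x n i) := by
  classical
  by_contra hcon
  push Not at hcon
  have hint : ∀ a : A, IsIntegral (MvPolynomial (Fin r) ℚ) a := fun a =>
    Algebra.IsIntegral.isIntegral a
  set G : MvPolynomial (Fin r) ℚ := (minpoly (MvPolynomial (Fin r) ℚ) g).coeff 0 with hGdef
  have hG : G ≠ 0 := coeff_zero_ne (hint g) hg
  have hyrec : ∀ (φ : A →+* ℂ) (n : ℕ) (i : Fin N), φ (x (n + 1) i) =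
      eval (fun i => φ (x n i)) (MvPolynomial.map φ (Φ i)) := by
    intro φ n i
    rw [hx, eval_map, eval, coe_eval₂Hom, eval₂_comp_left φ (RingHom.id A), RingHom.comp_id]
    rfl
  -- over the good points the orbits are finite
  have hfin : ∀ p : PH A r, eval p.1.1 G ≠ 0 → (Set.range fun n => fun i => p.1.2 (x n i)).Finite := by
    intro p hp
    refine finite_of_not_inj (F := fun v i => eval v (MvPolynomial.map p.1.2 (Φ i)))
      (fun n => ?_) (hcon p.1.2 (algebraic_of_over p.2) fun h0 => ?_)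
    · funext i
      exact hyrec p.1.2 n i
    · have h1 := root_of_hom p.2 g
      rw [h0, Polynomial.IsRoot, ← Polynomial.coeff_zero_eq_eval_zero, Polynomial.coeff_map] at h1
      rw [ev_eq] at h1
      exact hp (by exact_mod_cast h1)
  -- the uniform bound
  obtain ⟨C, b, hC, hbound⟩ : ∃ (C : ℝ) (b : ℕ), 0 < C ∧ ∀ p : PH A r, eval p.1.1 G ≠ 0 → ∀ n i,
      ‖p.1.2 (x n i)‖ ≤ C * w p.1.1 ^ b := by
    have hW : ∀ p : PH A r, 1 ≤ w p.1.1 := fun p => one_le_w _
    have hcn : ∀ f : MvPolynomial (Fin N) A, PB (fun p : PH A r => w p.1.1) fun p => cn p.1.2 f :=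
      fun f => PB.sum hW _ fun m _ => pb_hom (coeff m f)
    have hcp : PB (fun p : PH A r => w p.1.1) fun p =>
        ∑ i, cn p.1.2 (Φ i) + ∑ i, ∑ j, cn p.1.2 (Q i j) :=
      (PB.sum hW _ fun i _ => hcn (Φ i)).add hW
        (PB.sum hW _ fun i _ => PB.sum hW _ fun j _ => hcn (Q i j))
    have h0 : ∀ p : PH A r, 0 ≤ ∑ i, cn p.1.2 (Φ i) + ∑ i, ∑ j, cn p.1.2 (Q i j) := fun p =>
      add_nonneg (Finset.sum_nonneg fun i _ => cn_nonneg _ _)
        (Finset.sum_nonneg fun i _ => Finset.sum_nonneg fun j _ => cn_nonneg _ _)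
    have hK : PB (fun p : PH A r => w p.1.1) fun p => 1 + N *
        ((∑ i, cn p.1.2 (Φ i) + ∑ i, ∑ j, cn p.1.2 (Q i j)) *
          (1 + (∑ i, cn p.1.2 (Φ i) + ∑ i, ∑ j, cn p.1.2 (Q i j)))) := by
      refine (PB.const 1).add hW ((PB.const (N : ℝ)).mul hW (fun _ => Nat.cast_nonneg N) ?_ ?_)
      · intro p
        have := h0 p
        positivity
      · refine hcp.mul hW h0 ?_ ((PB.const 1).add hW hcp)
        intro p
        have := h0 p
        positivity
    obtain ⟨C, b, hC, hb⟩ := hK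
    refine ⟨C, b, hC, fun p hp n i => ?_⟩
    refine le_trans ?_ (hb p)
    refine escape hd hdeg hQ hcert p.1.2 (y := fun n i => p.1.2 (x n i)) (hyrec p.1.2) (hfin p hp)
      (h0 p) ?_ ?_ n i
    · intro i
      have h1 : cn p.1.2 (Φ i) ≤ ∑ i, cn p.1.2 (Φ i) :=
        Finset.single_le_sum (f := fun i => cn p.1.2 (Φ i)) (fun i _ => cn_nonneg _ _)
          (Finset.mem_univ i)
      have h2 : 0 ≤ ∑ i, ∑ j, cn p.1.2 (Q i j) :=
        Finset.sum_nonneg fun i _ => Finset.sum_nonneg fun j _ => cn_nonneg _ _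
      linarith
    · intro i j
      have h1 : cn p.1.2 (Q i j) ≤ ∑ j, cn p.1.2 (Q i j) :=
        Finset.single_le_sum (f := fun j => cn p.1.2 (Q i j)) (fun i _ => cn_nonneg _ _)
          (Finset.mem_univ j)
      have h2 : ∑ j, cn p.1.2 (Q i j) ≤ ∑ i, ∑ j, cn p.1.2 (Q i j) :=
        Finset.single_le_sum (f := fun i => ∑ j, cn p.1.2 (Q i j))
          (fun i _ => Finset.sum_nonneg fun j _ => cn_nonneg _ _) (Finset.mem_univ i)
      have h3 : 0 ≤ ∑ i, cn p.1.2 (Φ i) := Finset.sum_nonneg fun i _ => cn_nonneg _ _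
      linarith
  obtain ⟨E, hE⟩ := natDegree_bound (R := MvPolynomial (Fin r) ℚ) (A := A)
  -- the finite set of points
  let D : ℕ := b * E + G.totalDegree
  let I : Finset ℚ := (Finset.range (D + 1)).image fun n : ℕ => (n : ℚ)
  have hI : I.card = D + 1 := by
    rw [Finset.card_image_of_injective _ Nat.cast_injective, Finset.card_range]
  let S0 : Finset (Fin r → ℚ) := (Fintype.piFinset fun _ : Fin r => I).filter fun s => eval s G ≠ 0
  have hkey : ∀ (m n : ℕ) (i : Fin N), (∀ s ∈ S0, ∀ φ : A →+* ℂ,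
      φ.comp (algebraMap (MvPolynomial (Fin r) ℚ) A) = ev s → φ (x m i) = φ (x n i)) →
      x m i = x n i := by
    intro m n i h
    by_contra hne
    set z := x m i - x n i with hz
    have hz0 : z ≠ 0 := sub_ne_zero.2 hne
    set c : MvPolynomial (Fin r) ℚ := (minpoly (MvPolynomial (Fin r) ℚ) z).coeff 0 with hcdef
    have hc0 : c ≠ 0 := coeff_zero_ne (hint z) hz0
    have hcdeg : c.totalDegree ≤ b * E := by
      refine deg_le hG (C := (2 * C + 1) ^ E * (E.choose (E / 2))) fun s hs => ?_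
      have hw := one_le_w s
      have hw1 : 1 ≤ w s ^ b := one_le_pow₀ hw
      have h1 := Polynomial.coeff_bdd_of_roots_le (B := 2 * C * w s ^ b) (d := E) (ev s)
        (minpoly.monic (hint z)) (IsAlgClosed.splits _) (hE z) (fun z0 hz0 => by
          obtain ⟨φ, hφ, hφz⟩ := root_lift (ev s) z ((Polynomial.mem_roots'.1 hz0).2)
          have h2 := hbound ⟨(s, φ), hφ⟩ hs m i
          have h3 := hbound ⟨(s, φ), hφ⟩ hs n i
          rw [← hφz, hz, map_sub]
          refine (norm_sub_le _ _).trans ?_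
          simp only at h2 h3
          linarith) 0
      rw [Polynomial.coeff_map] at h1
      refine h1.trans ?_
      have h4 : max (2 * C * w s ^ b) 1 ≤ (2 * C + 1) * w s ^ b := by
        refine max_le ?_ ?_
        · nlinarith
        · nlinarith
      have h5 : max (2 * C * w s ^ b) 1 ^ E ≤ ((2 * C + 1) * w s ^ b) ^ E :=
        pow_le_pow_left₀ (le_max_of_le_right zero_le_one) h4 E
      calc max (2 * C * w s ^ b) 1 ^ E * (E.choose (E / 2) : ℝ) ≤
            ((2 * C + 1) * w s ^ b) ^ E * (E.choose (E / 2) : ℝ) :=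
            mul_le_mul_of_nonneg_right h5 (Nat.cast_nonneg _)
        _ = _ := by rw [mul_pow, ← pow_mul]; ring
    have hprod : c * G = 0 := by
      refine eq_zero_of_eval_zero_at_prod_finset _ (fun _ => I) (fun i => ?_) fun s hs => ?_
      · rw [hI]
        refine Nat.lt_succ_of_le ((degreeOf_le_totalDegree _ _).trans
          ((totalDegree_mul _ _).trans ?_))
        exact Nat.add_le_add_right hcdeg _
      · rw [map_mul]
        by_cases hGs : eval s G = 0
        · rw [hGs, mul_zero]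
        · have hs0 : s ∈ S0 := Finset.mem_filter.2 ⟨Fintype.mem_piFinset.2 hs, hGs⟩
          obtain ⟨φ, hφ⟩ := exists_lift (R := MvPolynomial (Fin r) ℚ) (A := A) (ev s)
          have h1 := root_of_hom hφ z
          have h2 : φ z = 0 := by rw [hz, map_sub, h s hs0 φ hφ, sub_self]
          rw [h2, Polynomial.IsRoot, ← Polynomial.coeff_zero_eq_eval_zero, Polynomial.coeff_map,
            ev_eq] at h1
          have h3 : eval s c = 0 := by exact_mod_cast h1
          rw [h3, zero_mul]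
    exact (mul_ne_zero hc0 hG) hprod
  -- finitely many homomorphisms
  have : Algebra.FiniteType (MvPolynomial (Fin r) ℚ) A := inferInstance
  have hT : {φ : A →+* ℂ | ∃ s ∈ S0, φ.comp (algebraMap (MvPolynomial (Fin r) ℚ) A) = ev s}.Finite := by
    have h1 : (⋃ s ∈ S0, {φ : A →+* ℂ |
        φ.comp (algebraMap (MvPolynomial (Fin r) ℚ) A) = ev s}).Finite :=
      S0.finite_toSet.biUnion fun s _ => finite_homs (ev s)
    refine h1.subset ?_
    rintro φ ⟨s, hs, hφ⟩
    exact Set.mem_biUnion hs hφ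
  set T := {φ : A →+* ℂ | ∃ s ∈ S0, φ.comp (algebraMap (MvPolynomial (Fin r) ℚ) A) = ev s} with hTdef
  have : Finite T := hT
  let Θ : ℕ → (T × Fin N → ℂ) := fun n q => q.1.1 (x n q.2)
  have hΘ : Function.Injective Θ := by
    intro m n hmn
    apply hinj
    funext i
    refine hkey m n i fun s hs φ hφ => ?_
    exact congrFun hmn (⟨φ, s, hs, hφ⟩, i)
  have hΘfin : (Set.range Θ).Finite := by
    have h1 : (Set.pi Set.univ fun q : T × Fin N => Set.range fun n => q.1.1 (x n q.2)).Finite := by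
      refine Set.Finite.pi fun q => ?_
      obtain ⟨s, hs, hφ⟩ := q.1.2
      have h2 := hfin ⟨(s, q.1.1), hφ⟩ (Finset.mem_filter.1 hs).2
      refine (h2.image fun v => v q.2).subset ?_
      rintro _ ⟨n, rfl⟩
      exact ⟨_, ⟨n, rfl⟩, rfl⟩
    refine h1.subset ?_
    rintro _ ⟨n, rfl⟩
    rw [Set.mem_univ_pi]
    intro q
    exact ⟨n, rfl⟩
  exact Set.infinite_range_of_injective hΘ hΘfin

end lemB

/-- An orbit which is not preperiodic stays so at a suitable algebraic point. -/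
theorem lemma_B {A : Type*} [CommRing A] [IsDomain A] [Algebra ℚ A] [Algebra.FiniteType ℚ A]
    {N d : ℕ} (hd : 2 ≤ d)
    {Φ : Fin N → MvPolynomial (Fin N) A} (hdeg : ∀ i, (Φ i).totalDegree ≤ d) {e : ℕ}
    {Q : Fin N → Fin N → MvPolynomial (Fin N) A} (hQ : ∀ i j, (Q i j).totalDegree ≤ e)
    (hcert : ∀ i, (X i : MvPolynomial (Fin N) A) ^ (e + d) =
      ∑ j, Q i j * homogeneousComponent d (Φ j))
    {x : ℕ → Fin N → A} (hx : ∀ n i, x (n + 1) i = eval (x n) (Φ i)) (hinj : Function.Injective x)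
    {g : A} (hg : g ≠ 0) :
    ∃ φ : A →+* ℂ, (∀ a, IsAlgebraic ℚ (φ a)) ∧ φ g ≠ 0 ∧
      Function.Injective fun n => fun i => φ (x n i) := by
  obtain ⟨r, ψ, hψ, hfin⟩ := exists_finite_inj_algHom_of_fg ℚ A
  let _ : Algebra (MvPolynomial (Fin r) ℚ) A := ψ.toRingHom.toAlgebra
  have h1 : Module.Finite (MvPolynomial (Fin r) ℚ) A := hfin
  have h2 : Algebra.IsIntegral (MvPolynomial (Fin r) ℚ) A := Algebra.IsIntegral.of_finite (MvPolynomial (Fin r) ℚ) A
  have h3 : FaithfulSMul (MvPolynomial (Fin r) ℚ) A :=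
    (faithfulSMul_iff_algebraMap_injective _ _).2 hψ
  have h4 : Module.IsTorsionFree (MvPolynomial (Fin r) ℚ) A := inferInstance
  exact core (r := r) hd hdeg hQ hcert hx hinj hg

end Pool.Agent.Helper61.DH
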