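import Mathlib
import Pool.Agent.Helper26.RC.Codim
import Pool.Agent.Helper61.DC.Desc

/-!
# Specialisation: a plane model of a curve
-/

set_option autoImplicit false

namespace Pool.Agent.Helper61.DH

open Polynomial

section plane

variable {F B : Type*} [Field F] [CommRing B] [IsDomain B] [Algebra F B]

theorem dvd_poly (h : Algebra.trdeg F B ≤ 1) {t : B} (ht : Transcendental F t) {f : B}
    (hf : f ≠ 0) : ∃ p : F[X], p ≠ 0 ∧ f ∣ aeval t p := by
  have hind : AlgebraicIndependent F (fun _ : PUnit.{1} => t) := by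
    rw [algebraicIndependent_unique_type_iff]
    exact ht
  have hb := hind.isTranscendenceBasis_of_lift_trdeg_le_of_finite (by
    rw [Cardinal.mk_punit, Cardinal.lift_one, Cardinal.lift_le_one_iff]
    exact h)
  have halg := hb.isAlgebraic
  obtain ⟨r, hr, b, hrb⟩ := (halg.isAlgebraic f).exists_nonzero_dvd
    (mem_nonZeroDivisors_of_ne_zero hf)
  have hr2 : (r : B) ∈ Algebra.adjoin F ({t} : Set B) :=
    Algebra.adjoin_mono (by rintro _ ⟨_, rfl⟩; rfl) r.2
  rw [Algebra.adjoin_singleton_eq_range_aeval] at hr2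
  obtain ⟨p, hp⟩ := hr2
  refine ⟨p, ?_, b, ?_⟩
  · rintro rfl
    apply hr
    apply Subtype.ext
    rw [← hp]
    exact map_zero _
  · rw [← hrb]
    exact hp

open IntermediateField in
theorem exists_plane [CharZero F] (h : Algebra.trdeg F B ≤ 1) {t : B} (ht : Transcendental F t)
    {N : ℕ} {x : Fin N → B} (hx : Algebra.adjoin F (Set.range x) = ⊤) :
    ∃ (η : B) (D : F[X]) (Q : Fin N → MvPolynomial (Fin 2) F), D ≠ 0 ∧
      ∀ i, aeval t D * x i = MvPolynomial.aeval ![t, η] (Q i) := by
  classical
  let L := FractionRing B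
  have hinj : Function.Injective (algebraMap B L) := IsFractionRing.injective B L
  have hL : Algebra.trdeg F L ≤ 1 := by
    have h1 : Algebra.trdeg F B + Algebra.trdeg B L = Algebra.trdeg F L := trdeg_add_eq F B
    have hal : Algebra.IsAlgebraic B L := IsLocalization.isAlgebraic L (nonZeroDivisors B)
    have h0 : Algebra.trdeg B L = 0 := trdeg_eq_zero
    rw [h0, add_zero] at h1
    rw [← h1]
    exact h
  let t' : L := algebraMap B L t
  have ht' : Transcendental F t' := (transcendental_algebraMap_iff hinj).2 ht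
  have hind : AlgebraicIndependent F (fun _ : PUnit.{1} => t') := by
    rw [algebraicIndependent_unique_type_iff]
    exact ht'
  have hb := hind.isTranscendenceBasis_of_lift_trdeg_le_of_finite (by
    rw [Cardinal.mk_punit, Cardinal.lift_one, Cardinal.lift_le_one_iff]
    exact hL)
  have halg0 := hb.isAlgebraic_field
  have hr : Set.range (fun _ : PUnit.{1} => t') = {t'} := by
    ext z
    simp
  rw [hr] at halg0
  have halg : Algebra.IsAlgebraic F⟮t'⟯ L := halg0
  -- finite dimensional
  have hfin : FiniteDimensional F⟮t'⟯ L := by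
    have h1 : FiniteDimensional F⟮t'⟯ (adjoin F⟮t'⟯ (Set.range fun i => algebraMap B L (x i))) :=
      finiteDimensional_adjoin fun z _ => (halg.isAlgebraic z).isIntegral
    have h2 : adjoin F⟮t'⟯ (Set.range fun i => algebraMap B L (x i)) = ⊤ := by
      rw [eq_top_iff]
      intro z _
      have h3 : ∀ b : B, algebraMap B L b ∈ adjoin F⟮t'⟯ (Set.range fun i => algebraMap B L (x i)) := by
        intro b
        have hb : b ∈ Algebra.adjoin F (Set.range x) := by
          rw [hx]
          trivial
        induction hb using Algebra.adjoin_induction with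
        | mem y hy =>
          obtain ⟨i, rfl⟩ := hy
          exact subset_adjoin _ _ ⟨i, rfl⟩
        | algebraMap r =>
          have h4 := (adjoin F⟮t'⟯ (Set.range fun i => algebraMap B L (x i))).algebraMap_mem
            (algebraMap F F⟮t'⟯ r)
          rw [← IsScalarTower.algebraMap_apply] at h4
          rwa [← IsScalarTower.algebraMap_apply]
        | add y z _ _ hy hz => rw [map_add]; exact add_mem hy hz
        | mul y z _ _ hy hz => rw [map_mul]; exact mul_mem hy hz
      obtain ⟨a, b, hb, rfl⟩ := IsFractionRing.div_surjective (A := B) z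
      exact div_mem (h3 a) (h3 b)
    rw [h2] at h1
    exact LinearEquiv.finiteDimensional (topEquiv (F := F⟮t'⟯) (E := L)).toLinearEquiv
  have hchar : CharZero F⟮t'⟯ := charZero_of_injective_algebraMap (algebraMap F F⟮t'⟯).injective
  obtain ⟨η0, hη0⟩ := Field.exists_primitive_element F⟮t'⟯ L
  obtain ⟨a, b, hb, hab⟩ := IsFractionRing.div_surjective (A := B) η0
  have hb0 : b ≠ 0 := nonZeroDivisors.ne_zero hb
  obtain ⟨p, hp, c, hc⟩ := dvd_poly h ht hb0
  have hpt : aeval t' p ≠ 0 := fun h0 => hp ((transcendental_iff.1 ht') p h0)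
  have htt : ∀ q : F[X], algebraMap B L (aeval t q) = aeval t' q := fun q =>
    (aeval_algebraMap_apply L t q).symm
  have hbc : algebraMap B L b * algebraMap B L c = aeval t' p := by
    rw [← map_mul, ← hc, htt]
  have hb0' : algebraMap B L b ≠ 0 := fun h0 => hb0 (hinj (by rw [h0, map_zero]))
  set η : B := a * c with hη
  have hηη0 : algebraMap B L η = aeval t' p * η0 := by
    rw [hη, map_mul, ← hbc, ← hab, mul_comm (algebraMap B L b), mul_assoc, mul_div_cancel₀ _ hb0',
      mul_comm]
  have htop : F⟮t'⟯⟮algebraMap B L η⟯ = ⊤ := by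
    rw [eq_top_iff, ← hη0, adjoin_simple_le_iff]
    have h1 : algebraMap B L η ∈ F⟮t'⟯⟮algebraMap B L η⟯ := mem_adjoin_simple_self _ _
    have h2 : aeval t' p ∈ F⟮t'⟯⟮algebraMap B L η⟯ := by
      have h3 : aeval t' p ∈ F⟮t'⟯ := by
        rw [mem_adjoin_simple_iff]
        exact ⟨p, 1, by rw [map_one, div_one]⟩
      exact (F⟮t'⟯⟮algebraMap B L η⟯).algebraMap_mem ⟨_, h3⟩
    have h3 : η0 = algebraMap B L η / aeval t' p := by
      rw [hηη0, mul_div_cancel_left₀ _ hpt]
    rw [h3]
    exact div_mem h1 h2
  -- all elements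
  let M : Set L := {y | ∃ (d : F[X]) (q : MvPolynomial (Fin 2) F), d ≠ 0 ∧
    aeval t' d * y = algebraMap B L (MvPolynomial.aeval ![t, η] q)}
  have hM : ∀ y : L, y ∈ M := by
    intro y
    have hy : y ∈ Algebra.adjoin F⟮t'⟯ {algebraMap B L η} := by
      have h1 := adjoin_simple_toSubalgebra_of_isAlgebraic
        (halg.isAlgebraic (algebraMap B L η))
      rw [htop, top_toSubalgebra] at h1
      rw [← h1]
      trivial
    induction hy using Algebra.adjoin_induction with
    | mem z hz =>
      rw [Set.mem_singleton_iff] at hz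
      rw [hz]
      refine ⟨1, MvPolynomial.X 1, one_ne_zero, ?_⟩
      rw [map_one, one_mul, MvPolynomial.aeval_X]
      rfl
    | algebraMap r =>
      obtain ⟨u, v, huv⟩ := (mem_adjoin_simple_iff F _).1 r.2
      by_cases hv : v = 0
      · refine ⟨1, 0, one_ne_zero, ?_⟩
        have h1 : algebraMap F⟮t'⟯ L r = 0 := by
          change (r : L) = 0
          rw [huv, hv, map_zero, div_zero]
        rw [h1, mul_zero, map_zero, map_zero]
      · refine ⟨v, aeval (MvPolynomial.X 0) u, hv, ?_⟩
        have hv0 : aeval t' v ≠ 0 := fun h0 => hv ((transcendental_iff.1 ht') v h0)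
        have h1 : algebraMap F⟮t'⟯ L r = aeval t' u / aeval t' v := huv
        rw [h1, mul_div_cancel₀ _ hv0, ← htt]
        congr 1
        have h2 := aeval_algHom_apply (MvPolynomial.aeval ![t, η] : MvPolynomial (Fin 2) F →ₐ[F] B)
          (MvPolynomial.X 0) u
        rw [MvPolynomial.aeval_X] at h2
        exact h2
    | add y z _ _ hy hz =>
      obtain ⟨d, q, hd, h1⟩ := hy
      obtain ⟨d', q', hd', h2⟩ := hz
      refine ⟨d * d', aeval (MvPolynomial.X 0) d' * q + aeval (MvPolynomial.X 0) d * q',
        mul_ne_zero hd hd', ?_⟩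
      have h3 : ∀ u : F[X], MvPolynomial.aeval ![t, η] (aeval (MvPolynomial.X 0 :
          MvPolynomial (Fin 2) F) u) = aeval t u := by
        intro u
        have h2 := aeval_algHom_apply (MvPolynomial.aeval ![t, η] : MvPolynomial (Fin 2) F →ₐ[F] B)
          (MvPolynomial.X 0) u
        rw [MvPolynomial.aeval_X] at h2
        exact h2.symm
      simp only [map_add, map_mul, h3, htt, ← h1, ← h2]
      ring
    | mul y z _ _ hy hz =>
      obtain ⟨d, q, hd, h1⟩ := hy
      obtain ⟨d', q', hd', h2⟩ := hz
      refine ⟨d * d', q * q', mul_ne_zero hd hd', ?_⟩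
      rw [map_mul, map_mul, map_mul, ← h1, ← h2]
      ring
  choose d q hd hdq using fun i => hM (algebraMap B L (x i))
  refine ⟨η, ∏ i, d i, fun i => aeval (MvPolynomial.X 0) (∏ j ∈ Finset.univ.erase i, d j) * q i,
    Finset.prod_ne_zero_iff.2 fun i _ => hd i, fun i => ?_⟩
  apply hinj
  have h3 : ∀ u : F[X], MvPolynomial.aeval ![t, η] (aeval (MvPolynomial.X 0 :
      MvPolynomial (Fin 2) F) u) = aeval t u := by
    intro u
    have h2 := aeval_algHom_apply (MvPolynomial.aeval ![t, η] : MvPolynomial (Fin 2) F →ₐ[F] B)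
      (MvPolynomial.X 0) u
    rw [MvPolynomial.aeval_X] at h2
    exact h2.symm
  rw [map_mul, map_mul, h3, map_mul, htt, htt, ← hdq i,
    ← Finset.prod_erase_mul _ _ (Finset.mem_univ i), map_mul]
  ring

end plane

end Pool.Agent.Helper61.DH
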