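import Mathlib
import Pool.Agent.Helper61.DH.Norm

/-!
# Specialisation: the normal form of a curve
-/

set_option autoImplicit false

namespace Pool.Agent.Helper61.DH

open MvPolynomial

section dim

variable {F : Type*} [Field F] {N : ℕ}

theorem aeval_mk {n : ℕ} (J : Ideal (MvPolynomial (Fin N) F)) (v : Fin n → MvPolynomial (Fin N) F)
    (p : MvPolynomial (Fin n) F) :
    aeval (fun i => Ideal.Quotient.mk J (v i)) p = Ideal.Quotient.mk J (aeval v p) :=
  (MvPolynomial.comp_aeval_apply v (Ideal.Quotient.mkₐ F J) p).symm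

theorem paeval_mk (J : Ideal (MvPolynomial (Fin N) F)) (v : MvPolynomial (Fin N) F)
    (p : Polynomial F) :
    Polynomial.aeval (Ideal.Quotient.mk J v) p = Ideal.Quotient.mk J (Polynomial.aeval v p) :=
  Polynomial.aeval_algHom_apply (Ideal.Quotient.mkₐ F J) v p

theorem pair_mk (J : Ideal (MvPolynomial (Fin N) F)) (f g : MvPolynomial (Fin N) F) :
    (![Ideal.Quotient.mk J f, Ideal.Quotient.mk J g] : Fin 2 → MvPolynomial (Fin N) F ⧸ J) =
      fun i => Ideal.Quotient.mk J ((![f, g] : Fin 2 → MvPolynomial (Fin N) F) i) := by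
  funext i
  fin_cases i <;> rfl

theorem adjoin_mk (J : Ideal (MvPolynomial (Fin N) F)) :
    Algebra.adjoin F (Set.range fun i => Ideal.Quotient.mk J (X i)) = ⊤ := by
  have h1 : (Set.range fun i => Ideal.Quotient.mk J (X i)) =
      (Ideal.Quotient.mkₐ F J) '' (Set.range (X : Fin N → MvPolynomial (Fin N) F)) := by
    rw [← Set.range_comp]
    rfl
  rw [h1, ← AlgHom.map_adjoin, adjoin_range_X, Algebra.map_top, AlgHom.range_eq_top]
  exact Ideal.Quotient.mk_surjective

theorem alg_of {J : Ideal (MvPolynomial (Fin N) F)} [J.IsPrime]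
    (h : ∀ i, ∃ m : Polynomial F, m ≠ 0 ∧ Polynomial.aeval (X i) m ∈ J) :
    Algebra.IsAlgebraic F (MvPolynomial (Fin N) F ⧸ J) := by
  constructor
  intro b
  obtain ⟨p, rfl⟩ := Ideal.Quotient.mk_surjective b
  rw [isAlgebraic_iff_isIntegral]
  induction p using MvPolynomial.induction_on with
  | C a => exact isIntegral_algebraMap (R := F) (A := MvPolynomial (Fin N) F ⧸ J) (x := a)
  | add p q hp hq =>
    rw [map_add]
    exact hp.add hq
  | mul_X p i hp =>
    rw [map_mul]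
    refine hp.mul (isAlgebraic_iff_isIntegral.1 ?_)
    obtain ⟨m, hm, hmJ⟩ := h i
    exact ⟨m, hm, by rw [paeval_mk, Ideal.Quotient.eq_zero_iff_mem]; exact hmJ⟩

theorem trd_of {J : Ideal (MvPolynomial (Fin N) F)} [J.IsPrime]
    (h : ∀ i j, ∃ G : MvPolynomial (Fin 2) F, G ≠ 0 ∧ aeval ![X i, X j] G ∈ J) :
    Algebra.trdeg F (MvPolynomial (Fin N) F ⧸ J) ≤ 1 := by
  by_contra hcon
  push Not at hcon
  have halg : Algebra.IsAlgebraic
      (Algebra.adjoin F (Set.range fun i => Ideal.Quotient.mk J (X i : MvPolynomial (Fin N) F)))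
      (MvPolynomial (Fin N) F ⧸ J) := by
    constructor
    intro b
    have hb : b ∈ Algebra.adjoin F (Set.range fun i => Ideal.Quotient.mk J (X i)) := by
      rw [adjoin_mk]
      trivial
    exact isAlgebraic_algebraMap (⟨b, hb⟩ : Algebra.adjoin F _)
  obtain ⟨t, hts, ht⟩ := exists_isTranscendenceBasis_subset (R := F)
    (Set.range fun i => Ideal.Quotient.mk J (X i : MvPolynomial (Fin N) F))
  have hnt : Nontrivial t := by
    rw [← Cardinal.one_lt_iff_nontrivial, ht.cardinalMk_eq_trdeg]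
    exact hcon
  obtain ⟨u, v, huv⟩ := hnt.exists_pair_ne
  obtain ⟨i, hi⟩ := hts u.2
  obtain ⟨j, hj⟩ := hts v.2
  have hind : AlgebraicIndependent F ![Ideal.Quotient.mk J (X i : MvPolynomial (Fin N) F),
      Ideal.Quotient.mk J (X j)] := by
    have h1 := ht.1.comp (![u, v] : Fin 2 → t) (by
      intro a b hab
      fin_cases a <;> fin_cases b <;> simp_all)
    convert h1 using 1
    funext k
    fin_cases k
    · exact hi
    · exact hj
  obtain ⟨G, hG, hGJ⟩ := h i j
  apply hG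
  refine hind.eq_zero_of_aeval_eq_zero _ ?_
  rw [pair_mk, aeval_mk, Ideal.Quotient.eq_zero_iff_mem]
  exact hGJ

variable {J : Ideal (MvPolynomial (Fin N) F)} [J.IsPrime]

theorem dd (h1 : Algebra.trdeg F (MvPolynomial (Fin N) F ⧸ J) ≤ 1) (f g : MvPolynomial (Fin N) F) :
    ∃ G : MvPolynomial (Fin 2) F, G ≠ 0 ∧ aeval ![f, g] G ∈ J := by
  by_contra hcon
  push Not at hcon
  have h2 : AlgebraicIndependent F ![Ideal.Quotient.mk J f, Ideal.Quotient.mk J g] := by
    refine (injective_iff_map_eq_zero _).2 fun G hG => ?_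
    by_contra hG0
    apply hcon G hG0
    rw [pair_mk] at hG
    rw [← Ideal.Quotient.eq_zero_iff_mem, ← aeval_mk]
    exact hG
  exact Pool.Agent.Helper61.DC.not_le_of_pair h2 h1

theorem cc (h1 : Algebra.trdeg F (MvPolynomial (Fin N) F ⧸ J) ≤ 1) {D : MvPolynomial (Fin N) F}
    (hD : D ∉ J) (f : MvPolynomial (Fin N) F) :
    ∃ (m : Polynomial F) (a : MvPolynomial (Fin N) F), m ≠ 0 ∧
      Polynomial.aeval f m - a * D ∈ J := by
  by_cases ht : Transcendental F (Ideal.Quotient.mk J f)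
  · obtain ⟨m, hm, b, hb⟩ := dvd_poly h1 ht (f := Ideal.Quotient.mk J D)
      (fun h0 => hD (Ideal.Quotient.eq_zero_iff_mem.1 h0))
    obtain ⟨a, rfl⟩ := Ideal.Quotient.mk_surjective b
    refine ⟨m, a, hm, ?_⟩
    rw [← Ideal.Quotient.eq, ← paeval_mk, hb, map_mul, mul_comm]
  · rw [Transcendental, not_not] at ht
    obtain ⟨m, hm, hm0⟩ := ht
    refine ⟨m, 0, hm, ?_⟩
    rw [zero_mul, sub_zero, ← Ideal.Quotient.eq_zero_iff_mem, ← paeval_mk]
    exact hm0

theorem normal_form [CharZero F] (h1 : Algebra.trdeg F (MvPolynomial (Fin N) F ⧸ J) ≤ 1)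
    (h2 : ¬ Algebra.IsAlgebraic F (MvPolynomial (Fin N) F ⧸ J)) :
    ∃ (θ : Fin 2 → MvPolynomial (Fin N) F) (P D : MvPolynomial (Fin 2) F)
      (Q : Fin N → MvPolynomial (Fin 2) F), Irreducible P ∧ aeval θ P ∈ J ∧ aeval θ D ∉ J ∧
        ∀ i, aeval θ D * X i - aeval θ (Q i) ∈ J := by
  obtain ⟨i0, hi0⟩ : ∃ i, Transcendental F (Ideal.Quotient.mk J (X i : MvPolynomial (Fin N) F)) := by
    by_contra hall
    push Not at hall
    refine h2 (alg_of fun i => ?_)
    have h3 := hall i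
    rw [Transcendental, not_not] at h3
    obtain ⟨m, hm, hm0⟩ := h3
    rw [paeval_mk, Ideal.Quotient.eq_zero_iff_mem] at hm0
    exact ⟨m, hm, hm0⟩
  obtain ⟨η, D, Q, hD, hQ⟩ := exists_plane h1 hi0 (adjoin_mk J)
  obtain ⟨y, rfl⟩ := Ideal.Quotient.mk_surjective η
  let θ : Fin 2 → MvPolynomial (Fin N) F := ![X i0, y]
  have hθ : ∀ p : MvPolynomial (Fin 2) F,
      aeval ![Ideal.Quotient.mk J (X i0), Ideal.Quotient.mk J y] p =
        Ideal.Quotient.mk J (aeval θ p) := by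
    intro p
    rw [pair_mk, aeval_mk]
  have hθD : aeval θ (Polynomial.aeval (X 0 : MvPolynomial (Fin 2) F) D) =
      Polynomial.aeval (X i0 : MvPolynomial (Fin N) F) D := by
    have h3 := Polynomial.aeval_algHom_apply (aeval θ) (X 0 : MvPolynomial (Fin 2) F) D
    rw [aeval_X] at h3
    exact h3.symm
  obtain ⟨G, hG, hGJ⟩ := dd h1 (X i0) y
  have hker : (J.comap (aeval θ : MvPolynomial (Fin 2) F →ₐ[F] MvPolynomial (Fin N) F)) ≠ ⊥ := by
    intro h0
    have h3 : G ∈ J.comap (aeval θ : MvPolynomial (Fin 2) F →ₐ[F] MvPolynomial (Fin N) F) := hGJ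
    rw [h0, Ideal.mem_bot] at h3
    exact hG h3
  have hprime : (J.comap (aeval θ : MvPolynomial (Fin 2) F →ₐ[F] MvPolynomial (Fin N) F)).IsPrime :=
    Ideal.comap_isPrime _ _
  obtain ⟨P, hP, hPp⟩ := hprime.exists_mem_prime_of_ne_bot hker
  refine ⟨θ, P, Polynomial.aeval (X 0) D, Q, hPp.irreducible, hP, ?_, fun i => ?_⟩
  · rw [hθD, ← Ideal.Quotient.eq_zero_iff_mem, ← paeval_mk]
    exact fun h0 => hD ((transcendental_iff.1 hi0) D h0)
  · rw [hθD, ← Ideal.Quotient.eq, map_mul, ← paeval_mk, ← hθ]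
    exact hQ i

end dim

end Pool.Agent.Helper61.DH
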