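import Mathlib
import Pool.Agent.Helper61.DH.Dim
import Pool.Agent.Helper26.RC.Main

/-!
# Specialisation: the argument over a number field
-/

set_option autoImplicit false

namespace Pool.Agent.Helper61.DH

open MvPolynomial Filter
open Pool.Agent.Helper26.RC (orb pmap cmp van mem_van eval_cmp_iter prime_eq van_transc)

/-- a good point: the relations hold and the denominator is not zero -/
def Good {R : Type*} [CommRing R] {N : ℕ} (θ : Fin 2 → MvPolynomial (Fin N) R)
    (P D : MvPolynomial (Fin 2) R) (Q : Fin N → MvPolynomial (Fin 2) R) (x : Fin N → R) : Prop :=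
  eval x (aeval θ P) = 0 ∧ (∀ i, eval x (aeval θ D * X i - aeval θ (Q i)) = 0) ∧
    eval x (aeval θ D) ≠ 0

section step

variable {K : Type*} [Field K] {N : ℕ}

theorem orb_add (Φ : Fin N → MvPolynomial (Fin N) K) (α : Fin N → K) (n k : ℕ) :
    (pmap Φ)^[k] (orb Φ α n) = orb Φ α (n + k) := by
  unfold orb
  rw [← Function.iterate_add_apply, add_comm]

omit [Field K] in
theorem ne_ev {y : ℕ → Fin N → K} (hy : Function.Injective y) {U : Ultrafilter ℕ}
    (hU : (U : Filter ℕ) ≤ cofinite) (c : Fin N → K) : ∀ᶠ n in (U : Filter ℕ), y n ≠ c := by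
  apply hU
  rw [Filter.mem_cofinite]
  refine Set.Subsingleton.finite ?_
  intro a ha b hb
  apply hy
  have h1 : y a = c := not_not.1 ha
  have h2 : y b = c := not_not.1 hb
  rw [h1, h2]

variable {θ : Fin 2 → MvPolynomial (Fin N) K} {P D : MvPolynomial (Fin 2) K}
  {Q : Fin N → MvPolynomial (Fin 2) K}

/-- elimination of the coordinates -/
theorem expr (θ : Fin 2 → MvPolynomial (Fin N) K) (D : MvPolynomial (Fin 2) K)
    (Q : Fin N → MvPolynomial (Fin 2) K) (f : MvPolynomial (Fin N) K) :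
    ∃ (e : ℕ) (F : MvPolynomial (Fin 2) K), aeval θ D ^ e * f - aeval θ F ∈
      Ideal.span (Set.range fun i => aeval θ D * X i - aeval θ (Q i)) := by
  induction f using MvPolynomial.induction_on with
  | C a =>
    refine ⟨0, C a, ?_⟩
    rw [pow_zero, one_mul, aeval_C]
    have h : algebraMap K (MvPolynomial (Fin N) K) a = C a := rfl
    rw [h, sub_self]
    exact Ideal.zero_mem _
  | add p q hp hq =>
    obtain ⟨e, F, h1⟩ := hp
    obtain ⟨e', F', h2⟩ := hq
    refine ⟨e + e', D ^ e' * F + D ^ e * F', ?_⟩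
    have h3 : aeval θ D ^ (e + e') * (p + q) - aeval θ (D ^ e' * F + D ^ e * F') =
        aeval θ D ^ e' * (aeval θ D ^ e * p - aeval θ F) +
          aeval θ D ^ e * (aeval θ D ^ e' * q - aeval θ F') := by
      rw [map_add, map_mul, map_mul, map_pow, map_pow, pow_add]
      ring
    rw [h3]
    exact Ideal.add_mem _ (Ideal.mul_mem_left _ _ h1) (Ideal.mul_mem_left _ _ h2)
  | mul_X p i hp =>
    obtain ⟨e, F, h1⟩ := hp
    refine ⟨e + 1, F * Q i, ?_⟩
    have h3 : aeval θ D ^ (e + 1) * (p * X i) - aeval θ (F * Q i) =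
        (aeval θ D * X i) * (aeval θ D ^ e * p - aeval θ F) +
          aeval θ F * (aeval θ D * X i - aeval θ (Q i)) := by
      rw [map_mul, pow_succ]
      ring
    rw [h3]
    exact Ideal.add_mem _ (Ideal.mul_mem_left _ _ h1)
      (Ideal.mul_mem_left _ _ (Ideal.subset_span ⟨i, rfl⟩))

theorem trd_plane (hP : P ≠ 0) [(Ideal.span {P}).IsPrime] :
    Algebra.trdeg K (MvPolynomial (Fin 2) K ⧸ Ideal.span {P}) ≤ 1 := by
  have h01 : aeval (![X 0, X 1] : Fin 2 → MvPolynomial (Fin 2) K) P = P := by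
    have h : (![X 0, X 1] : Fin 2 → MvPolynomial (Fin 2) K) = X := by
      funext i
      fin_cases i <;> rfl
    rw [h, aeval_X_left_apply]
  have h10 : aeval (![X 1, X 0] : Fin 2 → MvPolynomial (Fin 2) K)
      (aeval (![X 1, X 0] : Fin 2 → MvPolynomial (Fin 2) K) P) = P := by
    rw [MvPolynomial.comp_aeval_apply]
    have h : (fun i => aeval (![X 1, X 0] : Fin 2 → MvPolynomial (Fin 2) K)
        ((![X 1, X 0] : Fin 2 → MvPolynomial (Fin 2) K) i)) = X := by
      funext i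
      fin_cases i
      · simp
      · simp
    rw [h, aeval_X_left_apply]
  have hdiag : (X 0 - X 1 : MvPolynomial (Fin 2) K) ≠ 0 := by
    intro h0
    have h1 : (0 : Fin 2) = 1 := X_injective (sub_eq_zero.1 h0)
    exact absurd h1 (by decide)
  refine trd_of fun i j => ?_
  fin_cases i <;> fin_cases j
  · exact ⟨X 0 - X 1, hdiag, by simp⟩
  · exact ⟨P, hP, by
      change aeval (![X 0, X 1] : Fin 2 → MvPolynomial (Fin 2) K) P ∈ _
      rw [h01]
      exact Ideal.mem_span_singleton_self P⟩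
  · refine ⟨aeval (![X 1, X 0] : Fin 2 → MvPolynomial (Fin 2) K) P, fun h0 => hP ?_, ?_⟩
    · rw [← h10, h0, map_zero]
    · change aeval (![X 1, X 0] : Fin 2 → MvPolynomial (Fin 2) K)
        (aeval (![X 1, X 0] : Fin 2 → MvPolynomial (Fin 2) K) P) ∈ _
      rw [h10]
      exact Ideal.mem_span_singleton_self P
  · exact ⟨X 0 - X 1, hdiag, by simp⟩

variable {J : Ideal (MvPolynomial (Fin N) K)} [J.IsPrime]

theorem not_alg (hna : ¬ Algebra.IsAlgebraic K (MvPolynomial (Fin N) K ⧸ J)) (hD : aeval θ D ∉ J)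
    (hQ : ∀ i, aeval θ D * X i - aeval θ (Q i) ∈ J) :
    ¬ Algebra.IsAlgebraic K (MvPolynomial (Fin 2) K ⧸
      J.comap (aeval θ : MvPolynomial (Fin 2) K →ₐ[K] MvPolynomial (Fin N) K)) := by
  intro halg
  apply hna
  set q := J.comap (aeval θ : MvPolynomial (Fin 2) K →ₐ[K] MvPolynomial (Fin N) K) with hq
  have hmem : ∀ F, F ∈ q ↔ aeval θ F ∈ J := fun F => Iff.rfl
  have hqp : q.IsPrime := Ideal.comap_isPrime _ _
  have hD0 : Ideal.Quotient.mk q D ≠ 0 := fun h0 =>
    hD ((hmem D).1 (Ideal.Quotient.eq_zero_iff_mem.1 h0))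
  obtain ⟨c, hc, b, hb⟩ := (halg.isAlgebraic (Ideal.Quotient.mk q D)).exists_nonzero_dvd
    (mem_nonZeroDivisors_of_ne_zero hD0)
  obtain ⟨u, rfl⟩ := Ideal.Quotient.mk_surjective b
  have h1 : C c - D * u ∈ q := by
    rw [← Ideal.Quotient.eq, map_mul, ← hb]
    rfl
  rw [hmem, map_sub, map_mul, aeval_C] at h1
  refine alg_of fun i => ?_
  obtain ⟨m, hm, hm0⟩ := halg.isAlgebraic (Ideal.Quotient.mk q (C c⁻¹ * u * Q i))
  refine ⟨m, hm, ?_⟩
  rw [paeval_mk, Ideal.Quotient.eq_zero_iff_mem, hmem] at hm0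
  have h2 : aeval θ (Polynomial.aeval (C c⁻¹ * u * Q i) m) =
      Polynomial.aeval (aeval θ (C c⁻¹ * u * Q i)) m :=
    (Polynomial.aeval_algHom_apply (aeval θ) _ m).symm
  rw [h2] at hm0
  have h3 : X i - aeval θ (C c⁻¹ * u * Q i) ∈ J := by
    have h4 : X i - aeval θ (C c⁻¹ * u * Q i) =
        (C c⁻¹ * X i) * (algebraMap K (MvPolynomial (Fin N) K) c - aeval θ D * aeval θ u) +
          (C c⁻¹ * aeval θ u) * (aeval θ D * X i - aeval θ (Q i)) := by
      have h5 : (C c⁻¹ : MvPolynomial (Fin N) K) * algebraMap K (MvPolynomial (Fin N) K) c = 1 := by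
        change C c⁻¹ * C c = 1
        rw [← C_mul, inv_mul_cancel₀ hc, C_1]
      rw [map_mul, map_mul, aeval_C]
      have h6 : algebraMap K (MvPolynomial (Fin N) K) c⁻¹ = C c⁻¹ := rfl
      rw [h6]
      linear_combination (-X i) * h5
    rw [h4]
    exact J.add_mem (J.mul_mem_left _ h1) (J.mul_mem_left _ (hQ i))
  rw [← Ideal.Quotient.eq_zero_iff_mem, ← paeval_mk] at hm0 ⊢
  rw [Ideal.Quotient.eq.2 h3]
  exact hm0

theorem vanish (hna : ¬ Algebra.IsAlgebraic K (MvPolynomial (Fin N) K ⧸ J)) (hD : aeval θ D ∉ J)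
    (hQ : ∀ i, aeval θ D * X i - aeval θ (Q i) ∈ J) (hP : Irreducible P) (hPJ : aeval θ P ∈ J)
    {x : Fin N → K} (hx : Good θ P D Q x) {f : MvPolynomial (Fin N) K} (hf : f ∈ J) :
    eval x f = 0 := by
  have hp : (Ideal.span {P}).IsPrime := (Ideal.span_singleton_prime hP.ne_zero).2 hP.prime
  have hqp : (J.comap (aeval θ : MvPolynomial (Fin 2) K →ₐ[K] MvPolynomial (Fin N) K)).IsPrime :=
    Ideal.comap_isPrime _ _
  have heq : Ideal.span {P} = J.comap (aeval θ : MvPolynomial (Fin 2) K →ₐ[K] _) := by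
    refine prime_eq ?_ (trd_plane hP.ne_zero) (not_alg hna hD hQ)
    rw [Ideal.span_singleton_le_iff_mem]
    exact hPJ
  obtain ⟨e, F, hF⟩ := expr θ D Q f
  have hrJ : Ideal.span (Set.range fun i => aeval θ D * X i - aeval θ (Q i)) ≤ J := by
    rw [Ideal.span_le]
    rintro _ ⟨i, rfl⟩
    exact hQ i
  have hrx : Ideal.span (Set.range fun i => aeval θ D * X i - aeval θ (Q i)) ≤
      RingHom.ker (eval x) := by
    rw [Ideal.span_le]
    rintro _ ⟨i, rfl⟩
    exact hx.2.1 i
  have h1 : F ∈ J.comap (aeval θ : MvPolynomial (Fin 2) K →ₐ[K] MvPolynomial (Fin N) K) := by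
    have h2 := J.sub_mem (J.mul_mem_left (aeval θ D ^ e) hf) (hrJ hF)
    rw [sub_sub_cancel] at h2
    exact h2
  rw [← heq, Ideal.mem_span_singleton] at h1
  obtain ⟨F', rfl⟩ := h1
  have h3 := hrx hF
  rw [RingHom.mem_ker, map_sub, map_mul, map_pow, map_mul (aeval θ), map_mul, hx.1, zero_mul,
    sub_zero] at h3
  exact (mul_eq_zero.1 h3).resolve_left (pow_ne_zero _ hx.2.2)

/-- The argument over a number field. -/
theorem field_step {Φ : Fin N → MvPolynomial (Fin N) K} {α : Fin N → K}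
    (hinj : Function.Injective (orb Φ α)) {U : Ultrafilter ℕ} (hU : (U : Filter ℕ) ≤ cofinite)
    (hnf : Algebra.trdeg K (MvPolynomial (Fin N) K ⧸ van U (orb Φ α)) ≤ 1 →
      ∃ b, 0 < b ∧ ∀ f, f ∈ van U (orb Φ α) → (cmp Φ)^[b] f ∈ van U (orb Φ α))
    (hP : Irreducible P) (hPJ : aeval θ P ∈ van U (orb Φ α))
    (hQ : ∀ i, aeval θ D * X i - aeval θ (Q i) ∈ van U (orb Φ α))
    {m : Fin N → Polynomial K} {a : Fin N → MvPolynomial (Fin N) K} (hm : ∀ i, m i ≠ 0)
    (hma : ∀ i, Polynomial.aeval (X i) (m i) - a i * aeval θ D ∈ van U (orb Φ α))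
    {G : Fin N → Fin N → MvPolynomial (Fin 2) K} (hG : ∀ i j, G i j ≠ 0)
    (hGJ : ∀ i j, aeval ![X i, X j] (G i j) ∈ van U (orb Φ α))
    {f : MvPolynomial (Fin N) K} (hf : f ∈ van U (orb Φ α)) {n g m0 : ℕ}
    (h1 : Good θ P D Q (orb Φ α n)) (h2 : Good θ P D Q (orb Φ α (n + g)))
    (h3 : Good θ P D Q (orb Φ α m0)) : eval (orb Φ α (m0 + g)) f = 0 := by
  have htr : Algebra.trdeg K (MvPolynomial (Fin N) K ⧸ van U (orb Φ α)) ≤ 1 :=
    trd_of fun i j => ⟨G i j, hG i j, hGJ i j⟩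
  have hna : ¬ Algebra.IsAlgebraic K (MvPolynomial (Fin N) K ⧸ van U (orb Φ α)) :=
    van_transc (ne_ev hinj hU)
  have hD : aeval θ D ∉ van U (orb Φ α) := by
    intro h
    refine hna (alg_of fun i => ⟨m i, hm i, ?_⟩)
    have h4 := (van U (orb Φ α)).add_mem (hma i) ((van U (orb Φ α)).mul_mem_left (a i) h)
    rwa [sub_add_cancel] at h4
  obtain ⟨b, hb, hstab⟩ := hnf htr
  have hstab' : ∀ j f, f ∈ van U (orb Φ α) → (cmp Φ)^[b * j] f ∈ van U (orb Φ α) := by
    intro j
    induction j with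
    | zero => intro f hf; exact hf
    | succ j ih =>
      intro f hf
      rw [mul_add, mul_one, Function.iterate_add_apply]
      exact ih _ (hstab f hf)
  have hval : ∀ f, f ∈ van U (orb Φ α) → ∀ l, Good θ P D Q (orb Φ α l) → ∀ j,
      eval (orb Φ α (l + b * j)) f = 0 := by
    intro f hf l hl j
    rw [← orb_add, ← eval_cmp_iter]
    exact vanish hna hD hQ hP hPJ hl (hstab' j f hf)
  let y : ℕ → Fin N → K := fun j => orb Φ α (n + b * j)
  have hy : Function.Injective y := by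
    intro i j hij
    have h4 := hinj hij
    have h5 : b * i = b * j := by omega
    exact Nat.eq_of_mul_eq_mul_left hb h5
  have hvy : van U (orb Φ α) = van (hyperfilter ℕ) y := by
    refine prime_eq (fun f hf => ?_) htr (van_transc (ne_ev hy (Filter.hyperfilter_le_cofinite)))
    rw [mem_van]
    exact Eventually.of_forall fun j => hval f hf n h1 j
  have hg : (cmp Φ)^[g] f ∈ van U (orb Φ α) := by
    rw [hvy, mem_van]
    refine Eventually.of_forall fun j => ?_
    have h4 : (pmap Φ)^[g] (y j) = orb Φ α (n + g + b * j) := by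
      rw [orb_add]
      congr 1
      omega
    rw [eval_cmp_iter, h4]
    exact hval f hf _ h2 j
  have h5 := vanish hna hD hQ hP hPJ h3 hg
  rw [eval_cmp_iter, orb_add] at h5
  exact h5

end step

end Pool.Agent.Helper61.DH
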