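import Mathlib
import Pool.Agent.Helper61.DH.Step
import Pool.Agent.Helper61.DH.Irr
import Pool.Agent.Helper61.DH.LemB
import Pool.Agent.Helper61.DG.Main

/-!
# Specialisation: from a finitely generated algebra to a number field
-/

set_option autoImplicit false

namespace Pool.Agent.Helper61.DH

open MvPolynomial Filter
open Pool.Agent.Helper26.RC (orb pmap cmp van mem_van Reg infMap)
open Pool.Agent.Helper61.DG (BT rk mnr itr mnr_map itr_map)

section maps

variable {A S : Type*} [CommRing A] [CommRing S] {σ : Type*}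

theorem ev_map (φ : A →+* S) (x : σ → A) (p : MvPolynomial σ A) :
    eval (fun i => φ (x i)) (MvPolynomial.map φ p) = φ (eval x p) := by
  rw [eval_map, eval, coe_eval₂Hom, eval₂_comp_left, RingHom.comp_id]
  rfl

theorem aev_map {n : ℕ} (φ : A →+* S) (θ : Fin n → MvPolynomial σ A) (P : MvPolynomial (Fin n) A) :
    MvPolynomial.map φ (aeval θ P) =
      aeval (fun i => MvPolynomial.map φ (θ i)) (MvPolynomial.map φ P) := by
  induction P using MvPolynomial.induction_on with
  | C a =>
    rw [aeval_C, map_C, aeval_C]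
    exact map_C _ _
  | add p q hp hq => rw [map_add, map_add, map_add, map_add, hp, hq]
  | mul_X p i hp => rw [map_mul, map_mul, map_mul, map_mul, hp, aeval_X, map_X, aeval_X]

theorem paev_map (φ : A →+* S) (f : MvPolynomial σ A) (m : Polynomial A) :
    MvPolynomial.map φ (Polynomial.aeval f m) =
      Polynomial.aeval (MvPolynomial.map φ f) (Polynomial.map φ m) := by
  rw [Polynomial.aeval_def, Polynomial.aeval_def, Polynomial.eval₂_map, Polynomial.hom_eval₂]
  congr 1
  ext a
  simp [MvPolynomial.algebraMap_eq]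

theorem td_map_le (φ : A →+* S) (p : MvPolynomial σ A) :
    (MvPolynomial.map φ p).totalDegree ≤ p.totalDegree :=
  Finset.sup_mono (support_map_subset φ p)

theorem hc_map (φ : A →+* S) (e : ℕ) (g : MvPolynomial σ A) :
    homogeneousComponent e (MvPolynomial.map φ g) = MvPolynomial.map φ (homogeneousComponent e g) := by
  classical
  ext n
  rw [coeff_homogeneousComponent, coeff_map, coeff_map, coeff_homogeneousComponent]
  split_ifs
  · rfl
  · rw [map_zero]

theorem pair_map (φ : A →+* S) (f g : MvPolynomial σ A) :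
    (fun i => MvPolynomial.map φ ((![f, g] : Fin 2 → MvPolynomial σ A) i)) =
      ![MvPolynomial.map φ f, MvPolynomial.map φ g] := by
  funext i
  fin_cases i <;> rfl

end maps

section field

open IntermediateField in
theorem exists_field {A : Type*} [CommRing A] [Algebra ℚ A] [Algebra.FiniteType ℚ A] (φ : A →+* ℂ)
    (halg : ∀ a, IsAlgebraic ℚ (φ a)) :
    ∃ K : IntermediateField ℚ ℂ, FiniteDimensional ℚ K ∧ ∀ a, φ a ∈ K := by
  obtain ⟨T, hT⟩ := Algebra.FiniteType.out (R := ℚ) (A := A)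
  have hfin : Finite (φ '' (T : Set A)) := (T.finite_toSet.image φ).to_subtype
  refine ⟨adjoin ℚ (φ '' (T : Set A)), finiteDimensional_adjoin ?_, fun a => ?_⟩
  · rintro _ ⟨a, -, rfl⟩
    exact (halg a).isIntegral
  · have ha : a ∈ Algebra.adjoin ℚ (T : Set A) := by
      rw [hT]
      trivial
    induction ha using Algebra.adjoin_induction with
    | mem x hx => exact subset_adjoin _ _ ⟨x, hx, rfl⟩
    | algebraMap r =>
      have h1 : φ (algebraMap ℚ A r) = algebraMap ℚ ℂ r := by
        have h2 : φ.comp (algebraMap ℚ A) = algebraMap ℚ ℂ := Subsingleton.elim _ _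
        exact RingHom.congr_fun h2 r
      rw [h1]
      exact IntermediateField.algebraMap_mem _ r
    | add x y _ _ hx hy => rw [map_add]; exact add_mem hx hy
    | mul x y _ _ hx hy => rw [map_mul]; exact mul_mem hx hy

end field

section crit

variable {A : Type*} [CommRing A] {N : ℕ}

/-- the forms of degree `d` -/
noncomputable def top (d : ℕ) (Φ : Fin N → MvPolynomial (Fin N) A) (i : Fin N) :
    MvPolynomial (Fin N) A :=
  homogeneousComponent d (Φ i)

/-- the indices of the minors -/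
abbrev MI (N d k : ℕ) : Type :=
  (Fin (rk N (d ^ k) (d ^ k - 1)) → BT N (d ^ k)) ×
    (Fin (rk N (d ^ k) (d ^ k - 1)) → Fin N × BT N (d ^ k))

/-- the minors of the iterate `k` -/
noncomputable def mn (d k : ℕ) (Φ : Fin N → MvPolynomial (Fin N) A) (p : MI N d k) :
    MvPolynomial (Fin N) A :=
  mnr (itr (top d Φ) k) p.1 p.2

theorem top_map {S : Type*} [CommRing S] (φ : A →+* S) (d : ℕ) (Φ : Fin N → MvPolynomial (Fin N) A) :
    (fun i => MvPolynomial.map φ (top d Φ i)) = top d fun i => MvPolynomial.map φ (Φ i) := by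
  funext i
  exact (hc_map φ d (Φ i)).symm

theorem mn_map {S : Type*} [CommRing S] (φ : A →+* S) (d k : ℕ)
    (Φ : Fin N → MvPolynomial (Fin N) A) (p : MI N d k) :
    MvPolynomial.map φ (mn d k Φ p) = mn d k (fun i => MvPolynomial.map φ (Φ i)) p := by
  unfold mn
  rw [mnr_map]
  congr 1
  funext i
  rw [itr_map]
  congr 1
  exact top_map φ d Φ

/-- all multiplicities of the iterate `k` at infinity are less than `d ^ k` -/
def Small {K : Type*} [Field K] [Algebra K ℂ] (d k : ℕ) (Φ : Fin N → MvPolynomial (Fin N) K) : Prop :=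
  ∀ z : Fin N → ℂ, z ≠ 0 → ∃ p : MI N d k,
    eval z (mn d k (fun i => MvPolynomial.map (algebraMap K ℂ) (Φ i)) p) ≠ 0

theorem reg_of_cert {K : Type*} [Field K] [Algebra K ℂ] {d : ℕ} {Φ : Fin N → MvPolynomial (Fin N) K}
    (hdeg : ∀ i, (Φ i).totalDegree ≤ d) {e : ℕ} {Q : Fin N → Fin N → MvPolynomial (Fin N) K}
    (hcert : ∀ i, (X i : MvPolynomial (Fin N) K) ^ (e + d) =
      ∑ j, Q i j * homogeneousComponent d (Φ j)) : Reg ℂ d Φ := by
  refine ⟨hdeg, fun z hz => ?_⟩
  funext i
  have h1 := congrArg (aeval z) (hcert i)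
  rw [map_pow, aeval_X, map_sum] at h1
  rw [Finset.sum_eq_zero fun j _ => by
    rw [map_mul]
    have h2 : aeval z (homogeneousComponent d (Φ j)) = 0 := congrFun hz j
    rw [h2, mul_zero]] at h1
  by_contra h3
  exact pow_ne_zero _ h3 h1

theorem small_of_cert {K : Type*} [Field K] [Algebra K ℂ] {d k : ℕ}
    {Φ : Fin N → MvPolynomial (Fin N) K} {e : ℕ} {b : Fin N → MI N d k → MvPolynomial (Fin N) K}
    (hb : ∀ i, (X i : MvPolynomial (Fin N) K) ^ e = ∑ p, b i p * mn d k Φ p) : Small d k Φ := by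
  intro z hz
  by_contra hcon
  push Not at hcon
  apply hz
  funext i
  have h1 := congrArg (fun q => eval z (MvPolynomial.map (algebraMap K ℂ) q)) (hb i)
  simp only [map_pow, map_X, eval_X, map_sum, map_mul, mn_map] at h1
  rw [Finset.sum_eq_zero fun p _ => by rw [hcon p, mul_zero]] at h1
  by_contra h3
  exact pow_ne_zero _ h3 h1

end crit

/-- The number field theorem for all maps with small multiplicities. -/
def NFT (N d k : ℕ) : Prop :=
  ∀ (K : Type) [Field K] [NumberField K] [Algebra K ℂ] (Φ : Fin N → MvPolynomial (Fin N) K),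
    Reg ℂ d Φ → Small d k Φ →
    ∀ α, Function.Injective (orb Φ α) → ∀ U : Ultrafilter ℕ, (U : Filter ℕ) ≤ cofinite →
      Algebra.trdeg K (MvPolynomial (Fin N) K ⧸ van U (orb Φ α)) ≤ 1 →
      ∃ b, 0 < b ∧ ∀ f, f ∈ van U (orb Φ α) → (cmp Φ)^[b] f ∈ van U (orb Φ α)

theorem spec {N d k : ℕ} (hd : 2 ≤ d) (hNF : NFT N d k)
    {A : Type*} [CommRing A] [IsDomain A] [Algebra ℚ A] [Algebra.FiniteType ℚ A]
    {Φ : Fin N → MvPolynomial (Fin N) A} (hdeg : ∀ i, (Φ i).totalDegree ≤ d)
    {e : ℕ} {Qc : Fin N → Fin N → MvPolynomial (Fin N) A} (hQc : ∀ i j, (Qc i j).totalDegree ≤ e)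
    (hcert : ∀ i, (X i : MvPolynomial (Fin N) A) ^ (e + d) =
      ∑ j, Qc i j * homogeneousComponent d (Φ j))
    {e' : ℕ} {b : Fin N → MI N d k → MvPolynomial (Fin N) A}
    (hb : ∀ i, (X i : MvPolynomial (Fin N) A) ^ e' = ∑ p, b i p * mn d k Φ p)
    {x : ℕ → Fin N → A} (hx : ∀ n i, x (n + 1) i = eval (x n) (Φ i)) (hinj : Function.Injective x)
    {U : Ultrafilter ℕ} (hU : (U : Filter ℕ) ≤ cofinite)
    {θ : Fin 2 → MvPolynomial (Fin N) A} {P D : MvPolynomial (Fin 2) A}
    {Q : Fin N → MvPolynomial (Fin 2) A} (heP : 0 < P.totalDegree) (hPc : Cert P.totalDegree P)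
    (hPJ : ∀ᶠ n in (U : Filter ℕ), eval (x n) (aeval θ P) = 0)
    (hQJ : ∀ i, ∀ᶠ n in (U : Filter ℕ), eval (x n) (aeval θ D * X i - aeval θ (Q i)) = 0)
    {m : Fin N → Polynomial A} {a : Fin N → MvPolynomial (Fin N) A} (hm : ∀ i, m i ≠ 0)
    (hma : ∀ i, ∀ᶠ n in (U : Filter ℕ),
      eval (x n) (Polynomial.aeval (X i) (m i) - a i * aeval θ D) = 0)
    {G : Fin N → Fin N → MvPolynomial (Fin 2) A} (hG : ∀ i j, G i j ≠ 0)
    (hGJ : ∀ i j, ∀ᶠ n in (U : Filter ℕ), eval (x n) (aeval ![X i, X j] (G i j)) = 0)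
    {f : MvPolynomial (Fin N) A} (hf : ∀ᶠ n in (U : Filter ℕ), eval (x n) f = 0) {n g m0 : ℕ}
    (h1 : Good θ P D Q (x n)) (h2 : Good θ P D Q (x (n + g)))
    (h3 : Good θ P D Q (x m0)) : eval (x (m0 + g)) f = 0 := by
  classical
  by_contra hne
  -- coefficients which must not vanish
  obtain ⟨tP, htP, htP'⟩ : ∃ t, coeff t P ≠ 0 ∧ t.degree = P.totalDegree := by
    have hP0 : P ≠ 0 := by
      rintro rfl
      rw [totalDegree_zero] at heP
      omega
    obtain ⟨t, ht, h4⟩ := Finset.exists_mem_eq_sup P.support (support_nonempty.2 hP0)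
      fun s => s.degree
    exact ⟨t, mem_support_iff.1 ht, h4.symm⟩
  have hGc : ∀ i j, ∃ t, coeff t (G i j) ≠ 0 := by
    intro i j
    by_contra hall
    push Not at hall
    exact hG i j (by ext t; rw [hall t, coeff_zero])
  choose tG htG using hGc
  let cc : Fin 6 → A := ![eval (x n) (aeval θ D), eval (x (n + g)) (aeval θ D),
    eval (x m0) (aeval θ D), eval (x (m0 + g)) f, coeff tP P,
    (∏ i, (m i).leadingCoeff) * ∏ i, ∏ j, coeff (tG i j) (G i j)]
  have hcc : ∀ k, cc k ≠ 0 := by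
    intro k
    fin_cases k
    · exact h1.2.2
    · exact h2.2.2
    · exact h3.2.2
    · exact hne
    · exact htP
    · refine mul_ne_zero (Finset.prod_ne_zero_iff.2 fun i _ => ?_)
        (Finset.prod_ne_zero_iff.2 fun i _ => Finset.prod_ne_zero_iff.2 fun j _ => htG i j)
      exact Polynomial.leadingCoeff_ne_zero.2 (hm i)
  obtain ⟨φ, halg, hφ, hφinj⟩ := lemma_B hd hdeg hQc hcert hx hinj
    (g := ∏ k, cc k) (Finset.prod_ne_zero_iff.2 fun k _ => hcc k)
  rw [map_prod, Finset.prod_ne_zero_iff] at hφ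
  obtain ⟨K, hKfin, hK⟩ := exists_field φ halg
  have hNFK : NumberField K := by
    refine @NumberField.mk K _ inferInstance ?_
    convert hKfin
  let ψ : A →+* K := φ.codRestrict K hK
  have hψ : ∀ z, ((ψ z : K) : ℂ) = φ z := fun z => rfl
  have hψ0 : ∀ z, φ z ≠ 0 → ψ z ≠ 0 := by
    intro z hz h0
    apply hz
    rw [← hψ, h0]
    rfl
  have hccψ : ∀ k, ψ (cc k) ≠ 0 := fun k => hψ0 _ (hφ k (Finset.mem_univ k))
  -- the data over the number field
  let ΦK : Fin N → MvPolynomial (Fin N) K := fun i => MvPolynomial.map ψ (Φ i)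
  let αK : Fin N → K := fun i => ψ (x 0 i)
  have horb : ∀ n, orb ΦK αK n = fun i => ψ (x n i) := by
    intro n
    induction n with
    | zero => rfl
    | succ n ih =>
      rw [Pool.Agent.Helper26.RC.orb_succ, ih]
      funext i
      rw [hx, ← ev_map ψ (x n) (Φ i)]
      rfl
  have hevK : ∀ (n : ℕ) (p : MvPolynomial (Fin N) A),
      eval (orb ΦK αK n) (MvPolynomial.map ψ p) = ψ (eval (x n) p) := by
    intro n p
    rw [horb]
    exact ev_map ψ (x n) p
  have hinjK : Function.Injective (orb ΦK αK) := by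
    intro i j hij
    apply hφinj
    funext l
    rw [horb, horb] at hij
    have h4 := congrFun hij l
    exact congrArg (fun z : K => (z : ℂ)) h4
  have hmem : ∀ p : MvPolynomial (Fin N) A, (∀ᶠ n in (U : Filter ℕ), eval (x n) p = 0) →
      MvPolynomial.map ψ p ∈ van U (orb ΦK αK) := by
    intro p hp
    rw [mem_van]
    filter_upwards [hp] with n hn
    rw [hevK, hn, map_zero]
  have hdegK : ∀ i, (ΦK i).totalDegree ≤ d := fun i => (td_map_le ψ _).trans (hdeg i)
  have hRegK : Reg ℂ d ΦK := by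
    refine reg_of_cert (e := e) (Q := fun i j => MvPolynomial.map ψ (Qc i j)) hdegK fun i => ?_
    have h4 := congrArg (MvPolynomial.map ψ) (hcert i)
    simp only [map_pow, map_X, map_sum, map_mul, ← hc_map] at h4
    exact h4
  have hSmallK : Small d k ΦK := by
    refine small_of_cert (e := e') (b := fun i p => MvPolynomial.map ψ (b i p)) fun i => ?_
    have h4 := congrArg (MvPolynomial.map ψ) (hb i)
    simp only [map_pow, map_X, map_sum, map_mul, mn_map] at h4
    exact h4
  -- the plane model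
  let θK : Fin 2 → MvPolynomial (Fin N) K := fun i => MvPolynomial.map ψ (θ i)
  let PK := MvPolynomial.map ψ P
  let DK := MvPolynomial.map ψ D
  let QK : Fin N → MvPolynomial (Fin 2) K := fun i => MvPolynomial.map ψ (Q i)
  have hθ : ∀ p : MvPolynomial (Fin 2) A, aeval θK (MvPolynomial.map ψ p) =
      MvPolynomial.map ψ (aeval θ p) := fun p => (aev_map ψ θ p).symm
  have hPdeg : PK.totalDegree = P.totalDegree := by
    refine le_antisymm (td_map_le ψ P) ?_
    rw [← htP']
    refine le_totalDegree (s := tP) ?_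
    rw [mem_support_iff, coeff_map]
    exact hccψ 4
  have hrel : ∀ i, aeval θK DK * X i - aeval θK (QK i) =
      MvPolynomial.map ψ (aeval θ D * X i - aeval θ (Q i)) := by
    intro i
    rw [map_sub, map_mul, map_X, ← hθ, ← hθ]
  have hgood : ∀ l, Good θ P D Q (x l) → ψ (eval (x l) (aeval θ D)) ≠ 0 →
      Good θK PK DK QK (orb ΦK αK l) := by
    intro l hl h0
    refine ⟨?_, fun i => ?_, ?_⟩
    · rw [hθ, hevK, hl.1, map_zero]
    · rw [hrel, hevK, hl.2.1 i, map_zero]
    · rw [hθ, hevK]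
      exact h0
  have hc6 := hccψ 5
  have hc6' : ψ ((∏ i, (m i).leadingCoeff) * ∏ i, ∏ j, coeff (tG i j) (G i j)) ≠ 0 := hc6
  rw [map_mul, map_prod, map_prod] at hc6'
  have hmK : ∀ i, Polynomial.map ψ (m i) ≠ 0 := by
    intro i h0
    have h4 := Finset.prod_ne_zero_iff.1 (left_ne_zero_of_mul hc6') i (Finset.mem_univ i)
    apply h4
    rw [Polynomial.leadingCoeff, ← Polynomial.coeff_map, h0, Polynomial.coeff_zero]
  have hGK : ∀ i j, MvPolynomial.map ψ (G i j) ≠ 0 := by
    intro i j h0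
    have h4 := Finset.prod_ne_zero_iff.1 (right_ne_zero_of_mul hc6') i (Finset.mem_univ i)
    rw [map_prod] at h4
    have h5 := Finset.prod_ne_zero_iff.1 h4 j (Finset.mem_univ j)
    apply h5
    rw [← coeff_map, h0, coeff_zero]
  have hfin := field_step (θ := θK) (P := PK) (D := DK) (Q := QK) (f := MvPolynomial.map ψ f)
    hinjK hU (hNF K ΦK hRegK hSmallK αK hinjK U hU)
    (irr_of_cert hPc ψ heP hPdeg) (by rw [hθ]; exact hmem _ hPJ)
    (fun i => by rw [hrel]; exact hmem _ (hQJ i)) hmK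
    (a := fun i => MvPolynomial.map ψ (a i))
    (fun i => by
      have h4 : Polynomial.aeval (X i) (Polynomial.map ψ (m i)) - MvPolynomial.map ψ (a i) *
          aeval θK DK = MvPolynomial.map ψ (Polynomial.aeval (X i) (m i) - a i * aeval θ D) := by
        rw [map_sub, map_mul, paev_map, map_X, ← hθ]
      rw [h4]
      exact hmem _ (hma i))
    hGK
    (fun i j => by
      have h4 : aeval ![X i, X j] (MvPolynomial.map ψ (G i j)) =
          MvPolynomial.map ψ (aeval ![X i, X j] (G i j)) := by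
        rw [aev_map, pair_map, map_X, map_X]
      rw [h4]
      exact hmem _ (hGJ i j))
    (hmem _ hf) (hgood n h1 (hccψ 0)) (hgood (n + g) h2 (hccψ 1)) (hgood m0 h3 (hccψ 2))
  rw [hevK] at hfin
  exact hccψ 3 hfin

end Pool.Agent.Helper61.DH
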