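import Mathlib
import Pool.Agent.Helper61.DH.Spec
import Pool.Agent.Helper61.DC.Main
import Pool.Agent.Helper26.RC.FinU
import Pool.Agent.Helper26.RC.Cert

/-!
# Curves and generic polynomial maps over the complex numbers
-/

set_option autoImplicit false

namespace Pool.Agent.Helper61.DH

open MvPolynomial Filter
open Pool.Agent.Helper26.RC (orb pmap cmp van mem_van notMem_van Reg infMap union_of_ultra
  union_of_periodic eval_cmp_iter van_transc exists_cert back orb_succ eventually_ge)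
open Pool.Agent.Helper61.DC (tf)
open Pool.Agent.Helper61.DG (BT rk mnr itr LM LM_iff_mnr exists_psi fm fm_tf itr_hom mult_le TC)
open Pool.Agent.Helper52.RP (mult sp_of_mult)

section noeth

theorem van_ev {K : Type*} [Field K] {N : ℕ} (U : Ultrafilter ℕ) (y : ℕ → Fin N → K) :
    ∀ᶠ n in (U : Filter ℕ), ∀ f ∈ van U y, eval (y n) f = 0 := by
  obtain ⟨s, hs⟩ := (isNoetherianRing_iff_ideal_fg _).1 inferInstance (van U y)
  have h1 : ∀ᶠ n in (U : Filter ℕ), ∀ f ∈ s, eval (y n) f = 0 := by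
    rw [Filter.eventually_all_finset]
    intro f hf
    have : f ∈ van U y := by rw [← hs]; exact Ideal.subset_span hf
    exact this
  filter_upwards [h1] with n hn f hf
  rw [← hs] at hf
  have h2 : Ideal.span (s : Set (MvPolynomial (Fin N) K)) ≤ RingHom.ker (eval (y n)) :=
    Ideal.span_le.2 fun f hf => hn f hf
  exact h2 hf

end noeth

section nf

variable {N d k : ℕ}

theorem small_scaled {K : Type*} [Field K] [Algebra K ℂ] {Φ : Fin N → MvPolynomial (Fin N) K}
    (h : Small d k Φ) (z : Fin N → ℂ) (hz : z ≠ 0) : ∃ t : ℕ, 0 < t ∧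
      ∃ (ρ : Fin (rk N (d ^ k) (d ^ k - 1)) → BT N (d ^ k))
        (γ : Fin (rk N (d ^ k) (d ^ k - 1)) → Fin N × BT N (d ^ k)),
        eval (fun i => (t : ℂ) * z i) (mnr (itr (tf ℂ d Φ) k) ρ γ) ≠ 0 := by
  obtain ⟨p, hp⟩ := h z hz
  refine ⟨1, one_pos, p.1, p.2, ?_⟩
  have h1 : (fun i => ((1 : ℕ) : ℂ) * z i) = z := by
    funext i
    rw [Nat.cast_one, one_mul]
  rw [h1]
  exact hp

theorem nft (hd : 2 ≤ d) (hk : 0 < k) : NFT N d k := by
  intro K _ _ _ Φ hReg hSmall α hinj U hU htr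
  obtain ⟨-, hper⟩ := Pool.Agent.Helper61.DG.per_small hd hk Φ hReg.1
    (fun z hz => hReg.2 z (by
      funext i
      have h1 := hz i
      unfold Pool.Agent.Helper61.DC.tf at h1
      rw [Pool.Agent.Helper61.DC.hc_map, eval_map] at h1
      exact h1)) (small_scaled hSmall)
  have h4 := Pool.Agent.Helper52.RP.main_inj (Ω := algebraicClosure K ℂ) hd
    (Pool.Agent.Helper61.DC.reg_closure hReg) hinj (I := van U (orb Φ α))
    (fun P hP hIP => trd_of fun i j => by
      obtain ⟨G, hG, hGJ⟩ := dd htr (X i) (X j)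
      exact ⟨G, hG, hIP hGJ⟩)
    (by
      intro F _ _ z hz _ hper'
      let j : F →ₐ[K] ℂ := (algebraicClosure K ℂ).val.comp F.val
      exact hper F j z hz hper') hU (van_ev U (orb Φ α))
  have h5 : back Φ α 0 = orb Φ α := by
    funext n
    rfl
  rw [h5] at h4
  exact h4

end nf

section complex

variable {N d k : ℕ}

theorem exists_cert' {Φ : Fin N → MvPolynomial (Fin N) ℂ} (h : Small d k Φ) :
    ∃ (e : ℕ) (b : Fin N → MI N d k → MvPolynomial (Fin N) ℂ),
      ∀ i, (X i : MvPolynomial (Fin N) ℂ) ^ e = ∑ p, b i p * mn d k Φ p := by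
  set J : Ideal (MvPolynomial (Fin N) ℂ) := Ideal.span (Set.range fun p => mn d k Φ p) with hJ
  have h1 : ∀ i, (X i : MvPolynomial (Fin N) ℂ) ∈ J.radical := by
    intro i
    rw [← vanishingIdeal_zeroLocus_eq_radical (K := ℂ), mem_vanishingIdeal_iff]
    intro z hz
    rw [aeval_X]
    by_contra hne
    have hz0 : z ≠ 0 := by
      rintro rfl
      exact hne rfl
    obtain ⟨p, hp⟩ := h z hz0
    apply hp
    have h2 := hz _ (Ideal.subset_span ⟨p, rfl⟩)
    have h3 : (fun i => MvPolynomial.map (algebraMap ℂ ℂ) (Φ i)) = Φ := by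
      funext i
      exact MvPolynomial.map_id _
    rw [h3]
    exact h2
  choose n hn using h1
  set e : ℕ := Finset.univ.sup n with he
  have h2 : ∀ i, ∃ c : MI N d k → MvPolynomial (Fin N) ℂ,
      (X i : MvPolynomial (Fin N) ℂ) ^ e = ∑ p, c p * mn d k Φ p := by
    intro i
    have h3 : (X i : MvPolynomial (Fin N) ℂ) ^ e ∈ J :=
      J.pow_mem_of_pow_mem (hn i) (Finset.le_sup (Finset.mem_univ i))
    rw [hJ, Ideal.mem_span_range_iff_exists_fun] at h3
    obtain ⟨c, hc⟩ := h3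
    exact ⟨c, hc.symm⟩
  choose b hb using h2
  exact ⟨e, b, hb⟩

/-- The key step: the closure along the ultrafilter is stable. -/
theorem stable (hd : 2 ≤ d) (hNF : NFT N d k)
    {Φ : Fin N → MvPolynomial (Fin N) ℂ} (hSmall : Small d k Φ) (hReg : Reg ℂ d Φ)
    {α : Fin N → ℂ} (hinj : Function.Injective (orb Φ α)) {U : Ultrafilter ℕ}
    (hU : (U : Filter ℕ) ≤ cofinite)
    (htr : Algebra.trdeg ℂ (MvPolynomial (Fin N) ℂ ⧸ van U (orb Φ α)) ≤ 1) :
    ∃ g, 0 < g ∧ ∀ f, f ∈ van U (orb Φ α) → (cmp Φ)^[g] f ∈ van U (orb Φ α) := by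
  classical
  have hna : ¬ Algebra.IsAlgebraic ℂ (MvPolynomial (Fin N) ℂ ⧸ van U (orb Φ α)) :=
    van_transc (ne_ev hinj hU)
  obtain ⟨θ, P, D, Q, hP, hPJ, hD, hQJ⟩ := normal_form htr hna
  choose m a hm hma using fun i : Fin N => cc htr hD (X i)
  choose G hG hGJ using fun i j : Fin N => dd htr (X i) (X j)
  obtain ⟨e, Qc, hQc, hcert⟩ := exists_cert hReg
  obtain ⟨e', b, hb⟩ := exists_cert' hSmall
  obtain ⟨heP, hPc⟩ := cert_of_irr hP
  have hW := van_ev U (orb Φ α)
  rw [notMem_van] at hD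
  have hgood : ∀ᶠ n in (U : Filter ℕ), Good θ P D Q (orb Φ α n) := by
    filter_upwards [hW, hD] with n h1 h2
    exact ⟨h1 _ hPJ, fun i => h1 _ (hQJ i), h2⟩
  obtain ⟨n, hn⟩ := hgood.exists
  obtain ⟨n', hn', hlt⟩ := (hgood.and (eventually_ge hU (n + 1))).exists
  obtain ⟨g, rfl⟩ : ∃ g, n' = n + g := ⟨n' - n, by omega⟩
  refine ⟨g, by omega, fun f hf => ?_⟩
  by_contra hcon
  rw [notMem_van] at hcon
  obtain ⟨m0, hm0, hne⟩ := (hgood.and hcon).exists
  rw [eval_cmp_iter, orb_add] at hne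
  apply hne
  -- a finitely generated algebra
  have hEv := (Ev.all fun i => ev_lift (Φ i)).and ((Ev.all fun i => ev_mem (α i)).and
    ((Ev.all fun i => ev_lift (θ i)).and ((ev_lift P).and ((ev_lift D).and
    ((Ev.all fun i => ev_lift (Q i)).and ((Ev.all fun i => ev_plift (m i)).and
    ((Ev.all fun i => ev_lift (a i)).and ((Ev.all fun i => Ev.all fun j => ev_lift (G i j)).and
    ((ev_lift f).and ((Ev.all fun i => Ev.all fun j => ev_lift (Qc i j)).and
    ((Ev.all fun i => Ev.all fun p => ev_lift (b i p)).and (ev_cert hPc))))))))))))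
  obtain ⟨A, hA, hΦ', hα', hθ', hP', hD', hQ', hm', ha', hG', hf', hQc', hb', hPc'⟩ := hEv.exists
  choose Φ' hΦ' using hΦ'
  choose α' hα' using hα'
  choose θ' hθ' using hθ'
  obtain ⟨P', hP'⟩ := hP'
  obtain ⟨D', hD'⟩ := hD'
  choose Q' hQ' using hQ'
  choose m' hm' using hm'
  choose a' ha' using ha'
  choose G' hG' using hG'
  obtain ⟨f', hf'⟩ := hf'
  choose Qc' hQc' using hQc'
  choose b' hb' using hb'
  have hι : Function.Injective (algebraMap A ℂ) := Subtype.val_injective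
  have hιp : Function.Injective (MvPolynomial.map (σ := Fin N) (algebraMap A ℂ)) :=
    map_injective _ hι
  have htd : ∀ {σ : Type} (p : MvPolynomial σ A),
      (MvPolynomial.map (algebraMap A ℂ) p).totalDegree = p.totalDegree := by
    intro σ p
    unfold totalDegree
    rw [support_map_of_injective _ hι]
  let x : ℕ → Fin N → A := fun n => (fun (v : Fin N → A) i => eval v (Φ' i))^[n] α'
  have hx : ∀ n i, x (n + 1) i = eval (x n) (Φ' i) := by
    intro n i
    simp only [x, Function.iterate_succ_apply']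
  have hxo : ∀ n, (fun i => algebraMap A ℂ (x n i)) = orb Φ α n := by
    intro n
    induction n with
    | zero => exact funext hα'
    | succ n ih =>
      rw [orb_succ, ← ih]
      funext i
      rw [hx]
      unfold Pool.Agent.Helper26.RC.pmap
      rw [← hΦ' i]
      exact (ev_map (algebraMap A ℂ) (x n) (Φ' i)).symm
  have hev : ∀ (n : ℕ) (p : MvPolynomial (Fin N) A), algebraMap A ℂ (eval (x n) p) =
      eval (orb Φ α n) (MvPolynomial.map (algebraMap A ℂ) p) := by
    intro n p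
    rw [← hxo, ev_map]
  have hev0 : ∀ (n : ℕ) (p : MvPolynomial (Fin N) A), eval (x n) p = 0 ↔
      eval (orb Φ α n) (MvPolynomial.map (algebraMap A ℂ) p) = 0 := by
    intro n p
    rw [← hev, map_eq_zero_iff _ hι]
  have hθm : ∀ p : MvPolynomial (Fin 2) A, MvPolynomial.map (algebraMap A ℂ) (aeval θ' p) =
      aeval θ (MvPolynomial.map (algebraMap A ℂ) p) := by
    intro p
    rw [aev_map]
    congr 2
    exact funext hθ'
  have hrel : ∀ i, MvPolynomial.map (algebraMap A ℂ) (aeval θ' D' * X i - aeval θ' (Q' i)) =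
      aeval θ D * X i - aeval θ (Q i) := by
    intro i
    rw [map_sub, map_mul, map_X, hθm, hθm, hD', hQ']
  have hGood : ∀ l, Good θ P D Q (orb Φ α l) → Good θ' P' D' Q' (x l) := by
    intro l hl
    refine ⟨?_, fun i => ?_, ?_⟩
    · rw [hev0, hθm, hP']
      exact hl.1
    · rw [hev0, hrel]
      exact hl.2.1 i
    · rw [Ne, hev0, hθm, hD']
      exact hl.2.2
  have hmem : ∀ p : MvPolynomial (Fin N) A,
      MvPolynomial.map (algebraMap A ℂ) p ∈ van U (orb Φ α) →
      ∀ᶠ n in (U : Filter ℕ), eval (x n) p = 0 := by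
    intro p hp
    rw [mem_van] at hp
    filter_upwards [hp] with n h1
    rw [hev0]
    exact h1
  have hPd : P.totalDegree = P'.totalDegree := by rw [← hP', htd]
  have hfin := spec (A := A) (Φ := Φ') (x := x) (Qc := Qc') (e := e) (θ := θ') (P := P') (D := D')
    (Q := Q') (m := m') (a := a') (G := G') (f := f') (U := U) (n := n) (g := g) (m0 := m0) (b := b') (e' := e') hd hNF
    (fun i => by rw [← htd, hΦ' i]; exact hReg.1 i)
    (fun i j => by rw [← htd, hQc' i j]; exact (hQc i j).totalDegree_le)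
    (fun i => hιp (by
      rw [map_pow, map_X, hcert i, map_sum]
      refine Finset.sum_congr rfl fun j _ => ?_
      rw [map_mul, hQc', ← hc_map, hΦ']))
    (fun i => hιp (by
      rw [map_pow, map_X, hb i, map_sum]
      refine Finset.sum_congr rfl fun p _ => ?_
      rw [map_mul, hb', mn_map]
      congr 2
      exact (funext hΦ').symm))
    hx
    (fun i j hij => hinj (by rw [← hxo, ← hxo, hij]))
    hU (hPd ▸ heP) (hPd ▸ hPc' P' hP')
    (hmem _ (by rw [hθm, hP']; exact hPJ))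
    (fun i => hmem _ (by rw [hrel]; exact hQJ i))
    (fun i h0 => hm i (by rw [← hm' i, h0, Polynomial.map_zero]))
    (fun i => hmem _ (by
      rw [map_sub, map_mul, paev_map, map_X, hθm, hD', hm', ha']
      exact hma i))
    (fun i j h0 => hG i j (by rw [← hG' i j, h0, map_zero]))
    (fun i j => hmem _ (by
      rw [aev_map, pair_map, map_X, map_X, hG']
      exact hGJ i j))
    (hmem _ (by rw [hf']; exact hf))
    (hGood n hn) (hGood (n + g) hn') (hGood m0 hm0)
  rw [hev0, hf'] at hfin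
  exact hfin

theorem mainC (hd : 2 ≤ d) (hNF : NFT N d k)
    {Φ : Fin N → MvPolynomial (Fin N) ℂ} (hSmall : Small d k Φ) (hReg : Reg ℂ d Φ)
    (α : Fin N → ℂ) {I : Ideal (MvPolynomial (Fin N) ℂ)}
    (hI : ∀ P : Ideal (MvPolynomial (Fin N) ℂ), P.IsPrime → I ≤ P →
      Algebra.trdeg ℂ (MvPolynomial (Fin N) ℂ ⧸ P) ≤ 1) :
    ∃ A : Finset (ℕ × ℕ), {n | ∀ f ∈ I, eval (orb Φ α n) f = 0} =
      ⋃ p ∈ A, {n | ∃ k, n = p.1 + p.2 * k} := by
  by_cases hinj : Function.Injective (orb Φ α)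
  · refine union_of_ultra _ fun U hU hR => ?_
    have hIle : I ≤ van U (orb Φ α) := fun f hf => by
      rw [mem_van]
      filter_upwards [hR] with n hn
      exact hn f hf
    obtain ⟨m, hm, hinv⟩ := stable hd hNF hSmall hReg hinj hU (hI _ inferInstance hIle)
    have hW := van_ev U (orb Φ α)
    have hstep : ∀ n, (∀ f ∈ van U (orb Φ α), eval (orb Φ α n) f = 0) →
        ∀ f ∈ van U (orb Φ α), eval (orb Φ α (n + m)) f = 0 := by
      intro n hn f hf
      have h1 := hn _ (hinv f hf)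
      rw [eval_cmp_iter, orb_add] at h1
      exact h1
    obtain ⟨r, hr⟩ : ∃ r, ∀ᶠ n in (U : Filter ℕ), n % m = r := by
      have h1 : (Set.Iio m) ∈ U.map (fun n => n % m) :=
        Filter.mem_map.2 (Filter.univ_mem' fun n => Nat.mod_lt n hm)
      obtain ⟨r, -, h2⟩ := Ultrafilter.eq_pure_of_finite_mem (Set.finite_Iio m) h1
      have h3 : ({r} : Set ℕ) ∈ U.map (fun n => n % m) := by
        rw [h2]
        exact Ultrafilter.mem_pure.2 rfl
      exact ⟨r, h3⟩
    obtain ⟨a, haW, har⟩ := (hW.and hr).exists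
    have hall : ∀ k, ∀ f ∈ van U (orb Φ α), eval (orb Φ α (a + m * k)) f = 0 := by
      intro k
      induction k with
      | zero => rw [Nat.mul_zero, Nat.add_zero]; exact haW
      | succ k ih => rw [Nat.mul_succ, ← add_assoc]; exact hstep _ ih
    refine ⟨a, m, hm, fun k f hf => hall k f (hIle hf), ?_⟩
    have h4 : ∀ᶠ n in (U : Filter ℕ), ∃ k, n = a + m * k := by
      filter_upwards [hr, eventually_ge hU a] with n h1 h2
      refine ⟨(n - a) / m, ?_⟩
      have h3 : m ∣ n - a := (Nat.modEq_iff_dvd' h2).1 (har.trans h1.symm)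
      rw [Nat.mul_div_cancel' h3]
      omega
    exact h4
  · have : ∃ n0 m, 0 < m ∧ orb Φ α (n0 + m) = orb Φ α n0 := by
      unfold Function.Injective at hinj
      push Not at hinj
      obtain ⟨a, b, hab, hne⟩ := hinj
      rcases lt_or_gt_of_ne hne with h | h
      · exact ⟨a, b - a, by omega, by rw [Nat.add_sub_cancel' h.le]; exact hab.symm⟩
      · exact ⟨b, a - b, by omega, by rw [Nat.add_sub_cancel' h.le]; exact hab⟩
    obtain ⟨n0, m, hm, hn0⟩ := this
    have hper : ∀ n, n0 ≤ n → orb Φ α (n + m) = orb Φ α n := by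
      intro n hn
      induction n, hn using Nat.le_induction with
      | base => exact hn0
      | succ n hn ih =>
        rw [show n + 1 + m = (n + m) + 1 by ring, orb_succ, ih, ← orb_succ]
    exact union_of_periodic hm hper {x | ∀ f ∈ I, eval x f = 0}

/-- Small multiplicities at infinity, in terms of the local rings. -/
theorem small_of_mult {Φ : Fin N → MvPolynomial (Fin N) ℂ} (hdk : 0 < d ^ k)
    (h : ∀ z : Fin N → ℂ, z ≠ 0 → mult z (Ideal.span (Set.range fun i =>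
      (bind₁ (tf ℂ d Φ))^[k] (X i) - C (eval z ((bind₁ (tf ℂ d Φ))^[k] (X i))))) <
        ((d ^ k : ℕ) : Cardinal)) : Small d k Φ := by
  intro z hz
  have h1 := h z hz
  have h2 : mult z (Ideal.span (Set.range fun i =>
      (bind₁ (tf ℂ d Φ))^[k] (X i) - C (eval z ((bind₁ (tf ℂ d Φ))^[k] (X i))))) ≤
        ((d ^ k - 1 : ℕ) : Cardinal) := by
    obtain ⟨m, hm⟩ := Cardinal.lt_aleph0.1 (h1.trans Cardinal.natCast_lt_aleph0)
    rw [hm] at h1 ⊢
    have h3 : m < d ^ k := by exact_mod_cast h1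
    exact_mod_cast (by omega : m ≤ d ^ k - 1)
  have h3 : LM (itr (tf ℂ d Φ) k) z (d ^ k) (d ^ k - 1) := sp_of_mult h2 (d ^ k)
  obtain ⟨ρ, γ, h4⟩ := (LM_iff_mnr _ _ _ _).1 h3
  exact ⟨(ρ, γ), h4⟩

/-- Exact dynamical Mordell-Lang for curves and all maps with small multiplicities at infinity. -/
theorem criterion (hd : 2 ≤ d) (hk : 0 < k) {Φ : Fin N → MvPolynomial (Fin N) ℂ}
    (hReg : Reg ℂ d Φ)
    (h : ∀ z : Fin N → ℂ, z ≠ 0 → mult z (Ideal.span (Set.range fun i =>
      (bind₁ (tf ℂ d Φ))^[k] (X i) - C (eval z ((bind₁ (tf ℂ d Φ))^[k] (X i))))) <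
        ((d ^ k : ℕ) : Cardinal))
    (α : Fin N → ℂ) {I : Ideal (MvPolynomial (Fin N) ℂ)}
    (hI : ∀ P : Ideal (MvPolynomial (Fin N) ℂ), P.IsPrime → I ≤ P →
      Algebra.trdeg ℂ (MvPolynomial (Fin N) ℂ ⧸ P) ≤ 1) :
    ∃ A : Finset (ℕ × ℕ), {n | ∀ f ∈ I, eval (orb Φ α n) f = 0} =
      ⋃ p ∈ A, {n | ∃ k, n = p.1 + p.2 * k} :=
  mainC hd (nft hd hk) (small_of_mult (Nat.pow_pos (by omega)) h) hReg α hI

/-- The criterion holds for generic maps. -/
theorem generic_criterion (N : ℕ) {d : ℕ} (hd : 2 ≤ d) :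
    ∃ Ψ : MvPolynomial (TC N d) ℤ, Ψ ≠ 0 ∧ ∀ Φ : Fin N → MvPolynomial (Fin N) ℂ,
      (∀ i, (Φ i).totalDegree ≤ d) → aeval (fun t : TC N d => coeff t.2.1 (Φ t.1)) Ψ ≠ 0 →
      Reg ℂ d Φ ∧ ∃ k, 0 < k ∧ ∀ z : Fin N → ℂ, z ≠ 0 → mult z (Ideal.span (Set.range fun i =>
        (bind₁ (tf ℂ d Φ))^[k] (X i) - C (eval z ((bind₁ (tf ℂ d Φ))^[k] (X i))))) <
          ((d ^ k : ℕ) : Cardinal) := by
  obtain ⟨Ψ, hΨ, k0, hk0, hmain⟩ := exists_psi N hd
  refine ⟨Ψ, hΨ, fun Φ hdeg hΦ => ?_⟩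
  obtain ⟨h1, h2⟩ := hmain _ hΦ
  have htf : fm (d := d) (fun t => coeff t.2.1 (Φ t.1)) = tf ℂ d Φ := by
    funext i
    have h3 := fm_tf ℂ Φ (d := d) i
    exact h3
  rw [htf] at h1 h2
  refine ⟨⟨hdeg, fun z hz => h1 z fun i => ?_⟩, k0, hk0, fun z hz => ?_⟩
  · unfold Pool.Agent.Helper61.DC.tf
    rw [Pool.Agent.Helper61.DC.hc_map, eval_map]
    exact congrFun hz i
  · have hpos : 0 < d ^ k0 := Nat.pow_pos (by omega)
    obtain ⟨t, ht, ρ, γ, h3⟩ := h2 z hz
    have h4 : LM (itr (tf ℂ d Φ) k0) (fun i => (t : ℂ) * z i) (d ^ k0) (d ^ k0 - 1) :=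
      (LM_iff_mnr _ _ _ _).2 ⟨ρ, γ, h3⟩
    have h5 : LM (itr (tf ℂ d Φ) k0) z (d ^ k0) (d ^ k0 - 1) := by
      refine LM.scale (D := d ^ k0) ?_ (Nat.cast_ne_zero.2 ht.ne') h4
      exact fun i => itr_hom (fun l => homogeneousComponent_isHomogeneous _ _) k0 i
    have h6 := mult_le h5 (by omega : d ^ k0 - 1 < d ^ k0)
    refine lt_of_le_of_lt h6 ?_
    exact_mod_cast (by omega : d ^ k0 - 1 < d ^ k0)

end complex

end Pool.Agent.Helper61.DH
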